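import Pool.Agent.H370R2.Defs

/-!
# The zeros of a product of two entire functions (helper27)
-/

set_option autoImplicit false

open Complex Filter Topology

namespace Pool.Agent.T9h27.P

open H370 (zset NN Ns Nd mult)

lemma order_ne_top {f : ℂ → ℂ} (hf : Differentiable ℂ f) (h0 : ∃ s, f s ≠ 0) (s : ℂ) :
    analyticOrderAt f s ≠ ⊤ := by
  intro h
  rw [analyticOrderAt_eq_top] at h
  obtain ⟨z, hz⟩ := h0
  have hA : AnalyticOnNhd ℂ f Set.univ := fun x _ => hf.analyticAt x
  exact hz (hA.eqOn_zero_of_preconnected_of_eventuallyEq_zero isPreconnected_univ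
    (Set.mem_univ s) h (Set.mem_univ z))

lemma mult_mul {f g : ℂ → ℂ} (hf : Differentiable ℂ f) (hg : Differentiable ℂ g)
    (hf0 : ∃ s, f s ≠ 0) (hg0 : ∃ s, g s ≠ 0) (s : ℂ) :
    mult (fun s => f s * g s) s = mult f s + mult g s := by
  have h1 := analyticOrderAt_mul (hf.analyticAt s) (hg.analyticAt s)
  have h2 : analyticOrderAt (fun s => f s * g s) s = analyticOrderAt f s + analyticOrderAt g s :=
    h1
  change (analyticOrderAt (fun s => f s * g s) s).toNat = (analyticOrderAt f s).toNat +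
    (analyticOrderAt g s).toNat
  rw [h2, ENat.toNat_add (order_ne_top hf hf0 s) (order_ne_top hg hg0 s)]

lemma mult_pos {f : ℂ → ℂ} (hf : Differentiable ℂ f) (h0 : ∃ s, f s ≠ 0) {s : ℂ} :
    mult f s = 0 ↔ f s ≠ 0 := by
  have h1 : analyticOrderAt f s = 0 ↔ f s ≠ 0 := (hf.analyticAt s).analyticOrderAt_eq_zero
  rw [← h1]
  change (analyticOrderAt f s).toNat = 0 ↔ _
  rw [ENat.toNat_eq_zero]
  have := order_ne_top hf h0 s
  tauto

/-- the simple zeros of `f` on the critical line which are not zeros of `g` -/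
def own (f g : ℂ → ℂ) (T1 T2 : ℝ) : Set ℂ :=
  {s : ℂ | s ∈ zset f T1 T2 ∧ s.re = 1 / 2 ∧ mult f s = 1 ∧ g s ≠ 0}

theorem counts {f g : ℂ → ℂ} (hf : Differentiable ℂ f) (hg : Differentiable ℂ g)
    (hf0 : ∃ s, f s ≠ 0) (hg0 : ∃ s, g s ≠ 0) {T1 T2 : ℝ}
    (hfin : (zset (fun s => f s * g s) T1 T2).Finite) :
    zset (fun s => f s * g s) T1 T2 = zset f T1 T2 ∪ zset g T1 T2 ∧
    NN (fun s => f s * g s) T1 T2 = NN f T1 T2 + NN g T1 T2 ∧
    Ns (fun s => f s * g s) T1 T2 = (own f g T1 T2).ncard + (own g f T1 T2).ncard := by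
  classical
  have hz : zset (fun s => f s * g s) T1 T2 = zset f T1 T2 ∪ zset g T1 T2 := by
    ext s
    simp only [zset, Set.mem_setOf_eq, Set.mem_union, mul_eq_zero]
    tauto
  have hfz : (zset f T1 T2).Finite := hfin.subset (by rw [hz]; exact Set.subset_union_left)
  have hgz : (zset g T1 T2).Finite := hfin.subset (by rw [hz]; exact Set.subset_union_right)
  refine ⟨hz, ?_, ?_⟩
  · unfold NN
    rw [finsum_mem_eq_finite_toFinset_sum _ hfin, finsum_mem_eq_finite_toFinset_sum _ hfz,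
      finsum_mem_eq_finite_toFinset_sum _ hgz]
    rw [Finset.sum_congr rfl fun s _ => mult_mul hf hg hf0 hg0 s, Finset.sum_add_distrib]
    congr 1
    · refine (Finset.sum_subset (fun s hs => ?_) fun s hs hs' => ?_).symm
      · rw [Set.Finite.mem_toFinset] at hs ⊢
        rw [hz]
        exact Or.inl hs
      · rw [Set.Finite.mem_toFinset] at hs hs'
        rw [mult_pos hf hf0]
        intro h
        exact hs' ⟨hs.1, hs.2.1, hs.2.2.1, hs.2.2.2.1, h⟩
    · refine (Finset.sum_subset (fun s hs => ?_) fun s hs hs' => ?_).symm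
      · rw [Set.Finite.mem_toFinset] at hs ⊢
        rw [hz]
        exact Or.inr hs
      · rw [Set.Finite.mem_toFinset] at hs hs'
        rw [mult_pos hg hg0]
        intro h
        exact hs' ⟨hs.1, hs.2.1, hs.2.2.1, hs.2.2.2.1, h⟩
  · unfold Ns
    have hof : (own f g T1 T2).Finite := hfz.subset fun s hs => hs.1
    have hog : (own g f T1 T2).Finite := hgz.subset fun s hs => hs.1
    have hdis : Disjoint (own f g T1 T2) (own g f T1 T2) := by
      rw [Set.disjoint_left]
      intro s hs hs'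
      exact hs'.2.2.2 hs.1.2.2.2.2
    rw [← Set.ncard_union_eq hdis hof hog]
    congr 1
    ext s
    simp only [Set.mem_setOf_eq, Set.mem_union, own]
    rw [mult_mul hf hg hf0 hg0 s]
    constructor
    · rintro ⟨h1, h2, h3⟩
      rw [hz] at h1
      have h4 : mult f s = 1 ∧ mult g s = 0 ∨ mult f s = 0 ∧ mult g s = 1 := by omega
      rcases h4 with ⟨h5, h6⟩ | ⟨h5, h6⟩
      · rw [mult_pos hg hg0] at h6
        refine Or.inl ⟨?_, h2, h5, h6⟩
        rcases h1 with h1 | h1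
        · exact h1
        · exact absurd h1.2.2.2.2 h6
      · rw [mult_pos hf hf0] at h5
        refine Or.inr ⟨?_, h2, h6, h5⟩
        rcases h1 with h1 | h1
        · exact absurd h1.2.2.2.2 h5
        · exact h1
    · rintro (⟨h1, h2, h3, h4⟩ | ⟨h1, h2, h3, h4⟩)
      · rw [← mult_pos hg hg0] at h4
        refine ⟨by rw [hz]; exact Or.inl h1, h2, by omega⟩
      · rw [← mult_pos hf hf0] at h4
        refine ⟨by rw [hz]; exact Or.inr h1, h2, by omega⟩

/-- the existence of a simple critical zero of the product -/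
theorem ex_own {f g : ℂ → ℂ} (hf : Differentiable ℂ f) (hg : Differentiable ℂ g)
    (hf0 : ∃ s, f s ≠ 0) (hg0 : ∃ s, g s ≠ 0) {T1 T2 : ℝ} :
    (∃ s ∈ zset (fun s => f s * g s) T1 T2, s.re = 1 / 2 ∧ mult (fun s => f s * g s) s = 1) ↔
      (own f g T1 T2 ∪ own g f T1 T2).Nonempty := by
  constructor
  · rintro ⟨s, h1, h2, h3⟩
    rw [mult_mul hf hg hf0 hg0 s] at h3
    have h4 : mult f s = 1 ∧ mult g s = 0 ∨ mult f s = 0 ∧ mult g s = 1 := by omega
    obtain ⟨a1, a2, a3, a4, a5⟩ := h1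
    rcases h4 with ⟨h5, h6⟩ | ⟨h5, h6⟩
    · rw [mult_pos hg hg0] at h6
      have h7 : f s = 0 := by
        rcases mul_eq_zero.mp a5 with h | h
        · exact h
        · exact absurd h h6
      exact ⟨s, Or.inl ⟨⟨a1, a2, a3, a4, h7⟩, h2, h5, h6⟩⟩
    · rw [mult_pos hf hf0] at h5
      have h7 : g s = 0 := by
        rcases mul_eq_zero.mp a5 with h | h
        · exact absurd h h5
        · exact h
      exact ⟨s, Or.inr ⟨⟨a1, a2, a3, a4, h7⟩, h2, h6, h5⟩⟩
  · rintro ⟨s, (⟨⟨a1, a2, a3, a4, a5⟩, h2, h3, h4⟩ | ⟨⟨a1, a2, a3, a4, a5⟩, h2, h3, h4⟩)⟩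
    · rw [← mult_pos hg hg0] at h4
      refine ⟨s, ⟨a1, a2, a3, a4, ?_⟩, h2, ?_⟩
      · change f s * g s = 0
        rw [a5, zero_mul]
      · rw [mult_mul hf hg hf0 hg0 s]
        omega
    · rw [← mult_pos hf hf0] at h4
      refine ⟨s, ⟨a1, a2, a3, a4, ?_⟩, h2, ?_⟩
      · change f s * g s = 0
        rw [a5, mul_zero]
      · rw [mult_mul hf hg hf0 hg0 s]
        omega

end Pool.Agent.T9h27.P
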