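import Pool.Agent.H385R2.WinE

/-!
# The constants for products of two L-functions (helper27)
-/

set_option autoImplicit false

open Complex Filter Topology Set MeasureTheory

namespace Pool.Agent.T9h27.P

open H385 H385.WinC

/-- numerical values of the sine and the cosine -/
lemma trig_num (x c s e : ℝ) (hx0 : 0 ≤ x) (hx1 : x ≤ 1)
    (hc : |(1 - x ^ 2 / 2 + x ^ 4 / 24 - x ^ 6 / 720 + x ^ 8 / 40320 - x ^ 10 / 3628800) - c| ≤ e)
    (hs : |(x - x ^ 3 / 6 + x ^ 5 / 120 - x ^ 7 / 5040 + x ^ 9 / 362880 - x ^ 11 / 39916800) - s| ≤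
      e) :
    |Real.cos x - c| ≤ e + 1 / 10 ^ 8 ∧ |Real.sin x - s| ≤ e + 1 / 10 ^ 8 := by
  have hx : ‖((x : ℝ) : ℂ) * I‖ = x := by
    rw [norm_mul, Complex.norm_real, Complex.norm_I, mul_one, Real.norm_of_nonneg hx0]
  have h := Complex.exp_bound' (x := ((x : ℝ) : ℂ) * I) (n := 12) (by
    rw [hx]
    have : x / ((Nat.succ 12 : ℕ) : ℝ) ≤ 1 / ((Nat.succ 12 : ℕ) : ℝ) :=
      div_le_div_of_nonneg_right hx1 (by positivity)
    refine this.trans ?_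
    norm_num)
  rw [hx] at h
  have hI2 : I ^ 2 = -1 := I_sq
  have hI3 : I ^ 3 = -I := by rw [pow_succ, hI2]; ring
  have hI4 : I ^ 4 = 1 := by rw [pow_succ, hI3]; ring_nf; rw [hI2]; ring
  have hI5 : I ^ 5 = I := by rw [pow_succ, hI4]; ring
  have hI6 : I ^ 6 = -1 := by rw [pow_succ, hI5, ← pow_two, hI2]
  have hI7 : I ^ 7 = -I := by rw [pow_succ, hI6]; ring
  have hI8 : I ^ 8 = 1 := by rw [pow_succ, hI7]; ring_nf; rw [hI2]; ring
  have hI9 : I ^ 9 = I := by rw [pow_succ, hI8]; ring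
  have hI10 : I ^ 10 = -1 := by rw [pow_succ, hI9, ← pow_two, hI2]
  have hI11 : I ^ 11 = -I := by rw [pow_succ, hI10]; ring
  obtain ⟨A, hA⟩ : ∃ A : ℝ, A = 1 - x ^ 2 / 2 + x ^ 4 / 24 - x ^ 6 / 720 + x ^ 8 / 40320 -
    x ^ 10 / 3628800 := ⟨_, rfl⟩
  obtain ⟨B, hB⟩ : ∃ B : ℝ, B = x - x ^ 3 / 6 + x ^ 5 / 120 - x ^ 7 / 5040 + x ^ 9 / 362880 -
    x ^ 11 / 39916800 := ⟨_, rfl⟩
  rw [← hA] at hc
  rw [← hB] at hs
  have hsum : ∑ m ∈ Finset.range 12, (((x : ℝ) : ℂ) * I) ^ m / (m.factorial : ℂ) =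
      (A : ℂ) + (B : ℂ) * I := by
    simp only [Finset.sum_range_succ, Finset.sum_range_zero, mul_pow, hI2, hI3, hI4, hI5, hI6, hI7,
      hI8, hI9, hI10, hI11, Nat.factorial, hA, hB]
    push_cast
    ring
  rw [hsum, Complex.exp_ofReal_mul_I] at h
  have hre := (Complex.abs_re_le_norm _).trans h
  have him := (Complex.abs_im_le_norm _).trans h
  have e1 : ((((Real.cos x : ℝ) : ℂ) + ((Real.sin x : ℝ) : ℂ) * I -
      ((A : ℂ) + (B : ℂ) * I))).re = Real.cos x - A := by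
    rw [Complex.sub_re, Complex.add_re, Complex.add_re, Complex.re_ofReal_mul,
      Complex.re_ofReal_mul, Complex.I_re, Complex.ofReal_re, Complex.ofReal_re]
    ring
  have e2 : ((((Real.cos x : ℝ) : ℂ) + ((Real.sin x : ℝ) : ℂ) * I -
      ((A : ℂ) + (B : ℂ) * I))).im = Real.sin x - B := by
    rw [Complex.sub_im, Complex.add_im, Complex.add_im, Complex.im_ofReal_mul,
      Complex.im_ofReal_mul, Complex.I_im, Complex.ofReal_im, Complex.ofReal_im]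
    ring
  rw [e1] at hre
  rw [e2] at him
  have hb : x ^ 12 / ((12 : ℕ).factorial : ℝ) * 2 ≤ 1 / 10 ^ 8 := by
    have h1 : x ^ 12 ≤ 1 := pow_le_one₀ hx0 hx1
    have h2 : x ^ 12 / ((12 : ℕ).factorial : ℝ) * 2 ≤ 1 / ((12 : ℕ).factorial : ℝ) * 2 := by
      gcongr
    refine h2.trans ?_
    norm_num [Nat.factorial]
  rw [abs_le] at hre him hc hs ⊢
  rw [abs_le]
  refine ⟨⟨?_, ?_⟩, ?_, ?_⟩ <;> linarith [hre.1, hre.2, him.1, him.2, hc.1, hc.2, hs.1, hs.2]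

/-- the constant for two Dirichlet L-functions: `1 + cot 1 = 1.642092...` -/
theorem Rw_const_22 : 1 * Rw 2 0 + 4 * ∫ α in (0 : ℝ)..1, α * Rw 2 α < 1.6421 := by
  have h := Rw_const_closed 2 1 4 (by norm_num)
  rw [h]
  obtain ⟨hcos, hsin⟩ := trig_num 1 0.54030231 0.84147098 (1 / 10 ^ 7) (by norm_num) le_rfl
    (by rw [abs_le]; constructor <;> norm_num) (by rw [abs_le]; constructor <;> norm_num)
  have hS : Real.sin 2 = 2 * Real.sin 1 * Real.cos 1 := by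
    rw [← Real.sin_two_mul]; norm_num
  have hC : Real.cos 2 = 1 - 2 * Real.sin 1 ^ 2 := by
    have : Real.cos 2 = Real.cos (2 * 1) := by norm_num
    rw [this, Real.cos_two_mul, Real.cos_sq']
    ring
  rw [show (2 : ℝ) / 2 = 1 from by norm_num, hS, hC]
  obtain ⟨s, hs⟩ : ∃ s : ℝ, s = Real.sin 1 := ⟨_, rfl⟩
  obtain ⟨c, hc⟩ : ∃ c : ℝ, c = Real.cos 1 := ⟨_, rfl⟩
  rw [← hs] at hsin ⊢
  rw [← hc] at hcos ⊢
  rw [abs_le] at hcos hsin
  have hs1 : 0.8414708 ≤ s := by linarith [hsin.1]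
  have hc1 : c ≤ 0.5403025 := by linarith [hcos.2]
  have hspos : 0 < s := by linarith
  have e : (2 / (2 * s)) ^ 2 / 2 *
        (1 * (1 + 2 * s * c / 2) + 4 * ((1 - (1 - 2 * s ^ 2) - 1) / 2 ^ 2 +
          2 * s * c / 2 ^ 3)) = 1 + c / s := by
    field_simp
    ring
  rw [e]
  have h1 : c / s < 0.6421 := by
    rw [div_lt_iff₀ hspos]
    have h2 : 0.6421 * 0.8414708 ≤ 0.6421 * s := by linarith
    refine lt_of_le_of_lt hc1 (lt_of_lt_of_le ?_ h2)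
    norm_num
  linarith

/-- the constants for two L-functions of degree one -/
theorem consts22 : ∃ γ l D : ℝ, 0 < γ ∧ γ < Real.pi ∧ 1 / 2 ≤ l ∧ l < 1 ∧ 1 < D ∧
    Rw γ 0 / l + 2 * l * (2 * D) * (∫ α in (0 : ℝ)..1, α * Rw γ α) < 1.6421 := by
  obtain ⟨γ, hγ⟩ : ∃ γ : ℝ, γ = 2 := ⟨_, rfl⟩
  have h0 : 0 < γ := by rw [hγ]; norm_num
  have hπ : γ < Real.pi := by rw [hγ]; linarith [Real.pi_gt_three]
  have hconst := Rw_const_22
  rw [← hγ] at hconst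
  obtain ⟨R, hR⟩ : ∃ R : ℝ, R = Rw γ 0 := ⟨_, rfl⟩
  obtain ⟨I1, hI1⟩ : ∃ I1 : ℝ, I1 = ∫ α in (0 : ℝ)..1, α * Rw γ α := ⟨_, rfl⟩
  rw [← hR, ← hI1] at hconst
  have hcont : ContinuousAt (fun t : ℝ => R / t + 2 * t * (2 * (2 - t)) * I1) 1 := by
    have : (1 : ℝ) ≠ 0 := one_ne_zero
    fun_prop (disch := assumption)
  have hlt : (fun t : ℝ => R / t + 2 * t * (2 * (2 - t)) * I1) 1 < 1.6421 := by
    change R / 1 + 2 * 1 * (2 * (2 - 1)) * I1 < 1.6421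
    linarith
  have hev := hcont.eventually_lt_const hlt
  obtain ⟨r, hr, hball⟩ := Metric.eventually_nhds_iff.mp hev
  obtain ⟨t, ht⟩ : ∃ t : ℝ, t = 1 - min (r / 2) (1 / 2) := ⟨_, rfl⟩
  have hm1 : 0 < min (r / 2) (1 / 2) := lt_min (by positivity) (by norm_num)
  have hm2 : min (r / 2) (1 / 2) ≤ 1 / 2 := min_le_right _ _
  have hm3 : min (r / 2) (1 / 2) ≤ r / 2 := min_le_left _ _
  have htr := hball (y := t) (by rw [Real.dist_eq, abs_lt]; constructor <;> linarith)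
  change R / t + 2 * t * (2 * (2 - t)) * I1 < 1.6421 at htr
  refine ⟨γ, t, 2 - t, h0, hπ, by linarith, by linarith, by linarith, ?_⟩
  rw [← hR, ← hI1]
  exact htr

/-- the constant for L-functions of degree one and two, `1.937588...` -/
theorem Rw_const_32 : 3 / 2 * Rw (4 / 3) 0 + 8 / 3 * ∫ α in (0 : ℝ)..1, α * Rw (4 / 3) α <
    1.9376 := by
  have h := Rw_const_closed (4 / 3) (3 / 2) (8 / 3) (by norm_num)
  rw [h]
  obtain ⟨hcos, hsin⟩ := trig_num (2 / 3) 0.78588726 0.61836980 (1 / 10 ^ 7) (by norm_num)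
    (by norm_num)
    (by rw [abs_le]; constructor <;> norm_num) (by rw [abs_le]; constructor <;> norm_num)
  have hS : Real.sin (4 / 3) = 2 * Real.sin (2 / 3) * Real.cos (2 / 3) := by
    rw [← Real.sin_two_mul]; norm_num
  have hC : Real.cos (4 / 3) = 1 - 2 * Real.sin (2 / 3) ^ 2 := by
    have : Real.cos (4 / 3) = Real.cos (2 * (2 / 3)) := by norm_num
    rw [this, Real.cos_two_mul, Real.cos_sq']
    ring
  rw [show (4 / 3 : ℝ) / 2 = 2 / 3 from by norm_num, hS, hC]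
  obtain ⟨s, hs⟩ : ∃ s : ℝ, s = Real.sin (2 / 3) := ⟨_, rfl⟩
  obtain ⟨c, hc⟩ : ∃ c : ℝ, c = Real.cos (2 / 3) := ⟨_, rfl⟩
  rw [← hs] at hsin ⊢
  rw [← hc] at hcos ⊢
  rw [abs_le] at hcos hsin
  have hs1 : 0.6183696 ≤ s := by linarith [hsin.1]
  have hc1 : c ≤ 0.7858874 := by linarith [hcos.2]
  have hspos : 0 < s := by linarith
  have e : ((4 / 3) / (2 * s)) ^ 2 / 2 *
        (3 / 2 * (1 + 2 * s * c / (4 / 3)) + 8 / 3 * ((1 - (1 - 2 * s ^ 2) - 1) / (4 / 3) ^ 2 +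
          2 * s * c / (4 / 3) ^ 3)) = 2 / 3 + c / s := by
    field_simp
    ring
  rw [e]
  have h1 : c / s < 1.27091 := by
    rw [div_lt_iff₀ hspos]
    have h2 : 1.27091 * 0.6183696 ≤ 1.27091 * s := by linarith
    refine lt_of_le_of_lt hc1 (lt_of_lt_of_le ?_ h2)
    norm_num
  have h2 : (2 / 3 : ℝ) + 1.27091 < 1.9376 := by norm_num
  linarith

/-- the constants for two L-functions of degree one and two -/
theorem consts32 : ∃ γ l D : ℝ, 0 < γ ∧ γ < Real.pi ∧ 1 / 2 ≤ l ∧ 3 * l < 2 ∧ 1 < D ∧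
    Rw γ 0 / l + 2 * l * (2 * D) * (∫ α in (0 : ℝ)..1, α * Rw γ α) < 1.9376 := by
  obtain ⟨γ, hγ⟩ : ∃ γ : ℝ, γ = 4 / 3 := ⟨_, rfl⟩
  have h0 : 0 < γ := by rw [hγ]; norm_num
  have hπ : γ < Real.pi := by rw [hγ]; linarith [Real.pi_gt_three]
  have hconst := Rw_const_32
  rw [← hγ] at hconst
  obtain ⟨R, hR⟩ : ∃ R : ℝ, R = Rw γ 0 := ⟨_, rfl⟩
  obtain ⟨I1, hI1⟩ : ∃ I1 : ℝ, I1 = ∫ α in (0 : ℝ)..1, α * Rw γ α := ⟨_, rfl⟩
  rw [← hR, ← hI1] at hconst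
  have hcont : ContinuousAt (fun t : ℝ => R / t + 2 * t * (2 * (5 / 3 - t)) * I1) (2 / 3) := by
    have : (2 / 3 : ℝ) ≠ 0 := by norm_num
    fun_prop (disch := assumption)
  have hlt : (fun t : ℝ => R / t + 2 * t * (2 * (5 / 3 - t)) * I1) (2 / 3) < 1.9376 := by
    change R / (2 / 3) + 2 * (2 / 3) * (2 * (5 / 3 - 2 / 3)) * I1 < 1.9376
    linarith
  have hev := hcont.eventually_lt_const hlt
  obtain ⟨r, hr, hball⟩ := Metric.eventually_nhds_iff.mp hev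
  obtain ⟨t, ht⟩ : ∃ t : ℝ, t = 2 / 3 - min (r / 2) (1 / 6) := ⟨_, rfl⟩
  have hm1 : 0 < min (r / 2) (1 / 6) := lt_min (by positivity) (by norm_num)
  have hm2 : min (r / 2) (1 / 6) ≤ 1 / 6 := min_le_right _ _
  have hm3 : min (r / 2) (1 / 6) ≤ r / 2 := min_le_left _ _
  have htr := hball (y := t) (by rw [Real.dist_eq, abs_lt]; constructor <;> linarith)
  change R / t + 2 * t * (2 * (5 / 3 - t)) * I1 < 1.9376 at htr
  refine ⟨γ, t, 5 / 3 - t, h0, hπ, by linarith, by linarith, by linarith, ?_⟩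
  rw [← hR, ← hI1]
  exact htr

end Pool.Agent.T9h27.P
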