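import Pool.Agent.H370R2.DirGood
import Pool.Agent.Y773.HK.Defs
import Pool.Agent.W820.TW.FE
import Pool.Agent.Y772.FE.Gam

/-!
# The functional equation data of the Dirichlet L-functions and of products (helper27)
-/

set_option autoImplicit false

open Complex Filter Topology Set
open scoped ComplexConjugate

namespace Pool.Agent.T9h27.P

open Pool.Agent.Y773 (FEd GG)
open H370.DL

/-! ## decay of the gamma function -/

lemma gam_shift (z : ℂ) (hz : z.im ≠ 0) (N : ℕ) :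
    ‖Complex.Gamma z‖ * |z.im| ^ N ≤ ‖Complex.Gamma (z + N)‖ := by
  induction N with
  | zero => simp
  | succ n ih =>
    have h0 : z + n ≠ 0 := by
      intro h
      have := congrArg Complex.im h
      simp at this
      exact hz this
    have e1 : z + ((n + 1 : ℕ) : ℂ) = (z + n) + 1 := by push_cast; ring
    rw [e1, Complex.Gamma_add_one _ h0, norm_mul, pow_succ]
    have h1 : |z.im| ≤ ‖z + n‖ := by
      have := Complex.abs_im_le_norm (z + n)
      simpa using this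
    calc ‖Complex.Gamma z‖ * (|z.im| ^ n * |z.im|) =
        |z.im| * (‖Complex.Gamma z‖ * |z.im| ^ n) := by ring
      _ ≤ ‖z + n‖ * ‖Complex.Gamma (z + n)‖ :=
        mul_le_mul h1 ih (by positivity) (norm_nonneg _)

lemma gam_dec (a b : ℝ) (n : ℕ) : ∃ C : ℝ, 0 ≤ C ∧ ∀ z : ℂ, a ≤ z.re → z.re ≤ b →
    1 / 2 ≤ |z.im| → ‖Complex.Gamma z‖ * |z.im| ^ n ≤ C := by
  obtain ⟨k, hk⟩ : ∃ k : ℕ, k = ⌈|a|⌉₊ + 1 := ⟨_, rfl⟩
  have hka : 1 ≤ a + (n + k : ℕ) := by
    have h1 := Nat.le_ceil |a|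
    have h2 := neg_abs_le a
    rw [hk]
    push_cast
    have h3 : (0 : ℝ) ≤ n := Nat.cast_nonneg n
    linarith
  obtain ⟨C, hC⟩ := (isCompact_Icc (a := a + (n + k : ℕ)) (b := b + (n + k : ℕ))).exists_bound_of_continuousOn
    (f := Real.Gamma) (fun x hx => (Real.differentiableAt_Gamma (fun m h => by
      have h1 := hx.1
      have h2 : (0 : ℝ) ≤ m := Nat.cast_nonneg m
      linarith)).continuousAt.continuousWithinAt)
  refine ⟨|C| * 2 ^ k, by positivity, fun z h1 h2 h3 => ?_⟩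
  have hz : z.im ≠ 0 := by
    intro h
    rw [h, abs_zero] at h3
    norm_num at h3
  have h4 := gam_shift z hz (n + k)
  have hre : (z + ((n + k : ℕ) : ℂ)).re = z.re + (n + k : ℕ) := by simp
  have h5 : ‖Complex.Gamma (z + ((n + k : ℕ) : ℂ))‖ ≤ |C| := by
    refine (Pool.Agent.W820.TW.norm_Gamma_le (by rw [hre]; linarith)).trans ?_
    rw [hre]
    refine (le_abs_self _).trans ((hC _ ⟨by linarith, by linarith⟩).trans (le_abs_self C))
  have h6 : 1 ≤ |z.im| ^ k * 2 ^ k := by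
    rw [← mul_pow]
    exact one_le_pow₀ (by linarith)
  calc ‖Complex.Gamma z‖ * |z.im| ^ n = (‖Complex.Gamma z‖ * |z.im| ^ n) * 1 := (mul_one _).symm
    _ ≤ (‖Complex.Gamma z‖ * |z.im| ^ n) * (|z.im| ^ k * 2 ^ k) :=
        mul_le_mul_of_nonneg_left h6 (by positivity)
    _ = (‖Complex.Gamma z‖ * |z.im| ^ (n + k)) * 2 ^ k := by rw [pow_add]; ring
    _ ≤ |C| * 2 ^ k := mul_le_mul_of_nonneg_right (h4.trans h5) (by positivity)

section

variable {q : ℕ} [NeZero q] {χ : DirichletCharacter ℂ q}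

/-- polynomial growth to the right of the line `1/16`, upper half plane -/
lemma L_poly (hχ1 : χ ≠ 1) (B : ℝ) : ∃ (C : ℝ) (n : ℕ), 0 ≤ C ∧ ∀ s : ℂ, 1 / 16 ≤ s.re → s.re ≤ B →
    1 ≤ s.im → ‖DirichletCharacter.LFunction χ s‖ ≤ C * s.im ^ n := by
  obtain ⟨C, A, hC, hA, h⟩ := L_growth_ne hχ1
  obtain ⟨C2, hC2⟩ : ∃ C2 : ℝ, ∀ s : ℂ, 4 ≤ s.re → ‖DirichletCharacter.LFunction χ s‖ ≤ C2 := by
    refine ⟨∑' n : ℕ, ‖LSeries.term (fun n => χ n) 4 n‖, fun s hs => ?_⟩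
    have hsum4 : Summable (fun n : ℕ => ‖LSeries.term (fun n => χ n) 4 n‖) :=
      (DirichletCharacter.LSeriesSummable_of_one_lt_re χ (s := 4) (by norm_num)).norm
    rw [DirichletCharacter.LFunction_eq_LSeries χ (by linarith : 1 < s.re)]
    have h1 : ∀ n : ℕ, ‖LSeries.term (fun n => χ n) s n‖ ≤ ‖LSeries.term (fun n => χ n) 4 n‖ :=
      fun n => LSeries.norm_term_le_of_re_le_re _ (by simpa using hs) n
    refine (norm_tsum_le_tsum_norm (Summable.of_nonneg_of_le (fun _ => norm_nonneg _) h1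
      hsum4)).trans ?_
    exact Summable.tsum_le_tsum h1 (Summable.of_nonneg_of_le (fun _ => norm_nonneg _) h1 hsum4)
      hsum4
  refine ⟨C + |C2|, ⌈A⌉₊, by positivity, fun s h1 h2 h3 => ?_⟩
  have h4 : 1 ≤ s.im ^ ⌈A⌉₊ := one_le_pow₀ h3
  rcases le_total s.re 4 with h5 | h5
  · refine (h s h1 h5 h3).trans ?_
    have h6 : s.im ^ A ≤ s.im ^ ⌈A⌉₊ := by
      rw [← Real.rpow_natCast]
      exact Real.rpow_le_rpow_of_exponent_le h3 (Nat.le_ceil A)
    have : 0 ≤ |C2| := abs_nonneg _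
    nlinarith [mul_le_mul_of_nonneg_left h6 hC.le]
  · refine (hC2 s h5).trans ?_
    have h6 := le_abs_self C2
    have h7 := abs_nonneg C2
    nlinarith

/-- the same, both half planes -/
lemma L_poly' (hχ1 : χ ≠ 1) (B : ℝ) : ∃ (C : ℝ) (n : ℕ), 0 ≤ C ∧ ∀ s : ℂ, 1 / 16 ≤ s.re →
    s.re ≤ B → 1 ≤ |s.im| → ‖DirichletCharacter.LFunction χ s‖ ≤ C * |s.im| ^ n := by
  obtain ⟨C1, n1, hC1, h1⟩ := L_poly hχ1 B
  obtain ⟨C2, n2, hC2, h2⟩ := L_poly (χ := χ⁻¹) (by simpa using hχ1) B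
  refine ⟨C1 + C2, n1 + n2, by positivity, fun s a1 a2 a3 => ?_⟩
  have p1 : |s.im| ^ n1 ≤ |s.im| ^ (n1 + n2) := pow_le_pow_right₀ a3 (Nat.le_add_right _ _)
  have p2 : |s.im| ^ n2 ≤ |s.im| ^ (n1 + n2) := pow_le_pow_right₀ a3 (Nat.le_add_left _ _)
  have p3 : 0 ≤ |s.im| ^ (n1 + n2) := by positivity
  rcases le_total 0 s.im with h | h
  · rw [abs_of_nonneg h] at a3 p1 p3 ⊢
    refine (h1 s a1 a2 a3).trans ?_
    nlinarith [mul_le_mul_of_nonneg_left p1 hC1, mul_nonneg hC2 p3]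
  · rw [abs_of_nonpos h] at a3 p2 p3 ⊢
    have hs1 : s ≠ 1 := by
      rintro rfl
      simp at a3
      linarith
    have h4 := h2 (conj s) (by rw [Complex.conj_re]; exact a1) (by rw [Complex.conj_re]; exact a2)
      (by rw [Complex.conj_im]; exact a3)
    rw [LFunction_conj χ s hs1, RCLike.norm_conj, Complex.conj_im] at h4
    refine h4.trans ?_
    nlinarith [mul_le_mul_of_nonneg_left p2 hC2, mul_nonneg hC1 p3]

/-- the parity -/
noncomputable def pty (χ : DirichletCharacter ℂ q) : ℕ := by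
  classical exact if χ.Even then 0 else 1

lemma pty_le (χ : DirichletCharacter ℂ q) : pty χ ≤ 1 := by
  unfold pty
  split_ifs <;> norm_num

lemma aa_pty (χ : DirichletCharacter ℂ q) : aa χ = (pty χ : ℂ) := by
  unfold aa pty
  split_ifs <;> simp

lemma GG_unit (R : ℝ) (e : ℕ) (s : ℂ) :
    GG (ι := Unit) R (fun _ => e) s = (R : ℂ) ^ (s / 2) * Gammaℝ (s + e) := by
  unfold GG
  simp

/-- **the functional equation of a Dirichlet L-function** -/
theorem fed_dir (hχ : χ.IsPrimitive) (hχ1 : χ ≠ 1) :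
    FEd (ι := Unit) (q : ℝ) (fun _ => pty χ) (DirichletCharacter.LFunction χ) := by
  have hq0 : (0 : ℝ) < q := by exact_mod_cast Nat.pos_of_ne_zero (NeZero.ne q)
  have hq1 : (1 : ℝ) ≤ q := by exact_mod_cast Nat.pos_of_ne_zero (NeZero.ne q)
  have hqc : (q : ℂ) ≠ 0 := natCast_q_ne
  obtain ⟨w, hw⟩ : ∃ w : ℂ, w = DirichletCharacter.rootNumber χ := ⟨_, rfl⟩
  have hgs : ∀ s : ℂ, s.im ≠ 0 → Gammaℝ (s + pty χ) ≠ 0 := fun s hs =>
    Gammaℝ_ne_zero_of_im (by simpa using hs)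
  have hfe : ∀ s : ℂ, s.im ≠ 0 → GG (ι := Unit) (q : ℝ) (fun _ => pty χ) s *
      DirichletCharacter.LFunction χ s = w * conj (GG (ι := Unit) (q : ℝ) (fun _ => pty χ)
        (1 - conj s) * DirichletCharacter.LFunction χ (1 - conj s)) := by
    intro s hs
    have h1 := func_eq hχ hs
    rw [GG_unit, GG_unit, map_mul, map_mul]
    have e1 : conj ((((q : ℝ) : ℂ)) ^ ((1 - conj s) / 2)) = ((q : ℝ) : ℂ) ^ ((1 - s) / 2) := by
      have h2 := Pool.Agent.W820.TW.conj_real_cpow hq0 ((1 - conj s) / 2)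
      rw [h2, map_div₀, map_sub, map_one, Complex.conj_conj, map_ofNat]
    have e2 : conj (Gammaℝ (1 - conj s + pty χ)) = Gammaℝ (1 - s + pty χ) := by
      rw [Pool.Agent.Y772.FE.conj_Gammaℝ]
      congr 1
      simp
    rw [e1, e2]
    change _ = w * (_ * refl (DirichletCharacter.LFunction χ) s)
    rw [h1]
    unfold XX
    rw [aa_pty, ← hw]
    have hg := hgs s hs
    have e3 : (((q : ℝ) : ℂ)) ^ (s / 2) * (q : ℂ) ^ (1 / 2 - s) = ((q : ℝ) : ℂ) ^ ((1 - s) / 2) := by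
      rw [Complex.ofReal_natCast, ← Complex.cpow_add _ _ hqc]
      congr 1
      ring
    rw [← e3]
    field_simp
  have hdiff : Differentiable ℂ (DirichletCharacter.LFunction χ) :=
    DirichletCharacter.differentiable_LFunction hχ1
  have hwn : ‖w‖ = 1 := by
    have hs : ((2 : ℂ) + I).im ≠ 0 := by simp
    have hs' : (1 - conj ((2 : ℂ) + I)).im ≠ 0 := by simp
    have h1 := hfe _ hs
    have h2 := hfe _ hs'
    have e1 : 1 - conj (1 - conj ((2 : ℂ) + I)) = 2 + I := one_sub_conj_invol _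
    rw [e1] at h2
    rw [h2] at h1
    have hne : GG (ι := Unit) (q : ℝ) (fun _ => pty χ) (2 + I) *
        DirichletCharacter.LFunction χ (2 + I) ≠ 0 := by
      refine mul_ne_zero ?_ ?_
      · rw [GG_unit]
        refine mul_ne_zero ?_ (hgs _ hs)
        rw [Complex.ofReal_natCast]
        exact Complex.cpow_ne_zero_iff.mpr (Or.inl hqc)
      · exact DirichletCharacter.LFunction_ne_zero_of_one_le_re χ (Or.inl hχ1) (by simp)
    obtain ⟨x, hx⟩ : ∃ x : ℂ, x = GG (ι := Unit) (q : ℝ) (fun _ => pty χ) (2 + I) *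
        DirichletCharacter.LFunction χ (2 + I) := ⟨_, rfl⟩
    rw [← hx] at h1 hne
    rw [map_mul, Complex.conj_conj, ← mul_assoc, Complex.mul_conj] at h1
    have h3 : ((Complex.normSq w : ℝ) : ℂ) = 1 := by
      have h4 : ((Complex.normSq w : ℝ) : ℂ) * x = 1 * x := by rw [one_mul]; exact h1.symm
      exact mul_right_cancel₀ hne h4
    have h5 : Complex.normSq w = 1 := by exact_mod_cast h3
    rw [Complex.normSq_eq_norm_sq] at h5
    have h6 := norm_nonneg w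
    nlinarith
  refine ⟨fun _ => pty_le χ, hdiff, ⟨w, hwn, hfe⟩, fun a b => ?_⟩
  -- the bound in vertical strips
  obtain ⟨B, hB⟩ : ∃ B : ℝ, B = max |b| (1 + |a|) := ⟨_, rfl⟩
  have hB1 : |b| ≤ B := by rw [hB]; exact le_max_left _ _
  have hB2 : 1 + |a| ≤ B := by rw [hB]; exact le_max_right _ _
  have hB0 : 0 ≤ B := (abs_nonneg b).trans hB1
  obtain ⟨C, n, hC, hpoly⟩ := L_poly' hχ1 B
  obtain ⟨C', hC', hdec⟩ := gam_dec 0 (B + 1) n
  have hright : ∀ s : ℂ, 1 / 16 ≤ s.re → s.re ≤ B → 1 ≤ |s.im| →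
      ‖GG (ι := Unit) (q : ℝ) (fun _ => pty χ) s * DirichletCharacter.LFunction χ s‖ ≤
        (q : ℝ) ^ (B / 2) * (C * (C' * 2 ^ n)) := by
    intro s h1 h2 h3
    have hp1 : (0 : ℝ) ≤ (pty χ : ℝ) := Nat.cast_nonneg _
    have hp2 : (pty χ : ℝ) ≤ 1 := by exact_mod_cast pty_le χ
    rw [norm_mul, GG_unit, norm_mul]
    have g1 : ‖((q : ℝ) : ℂ) ^ (s / 2)‖ ≤ (q : ℝ) ^ (B / 2) := by
      rw [Complex.norm_cpow_eq_rpow_re_of_pos hq0]
      refine Real.rpow_le_rpow_of_exponent_le hq1 ?_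
      have : (s / 2).re = s.re / 2 := by simp
      rw [this]
      linarith
    have hre : ((s + pty χ) / 2).re = (s.re + pty χ) / 2 := by simp
    have him : ((s + pty χ) / 2).im = s.im / 2 := by simp
    have g2 : ‖Gammaℝ (s + pty χ)‖ ≤ ‖Complex.Gamma ((s + pty χ) / 2)‖ := by
      rw [Gammaℝ_def, norm_mul]
      refine mul_le_of_le_one_left (norm_nonneg _) ?_
      rw [Complex.norm_cpow_eq_rpow_re_of_pos Real.pi_pos]
      refine Real.rpow_le_one_of_one_le_of_nonpos (by linarith [Real.pi_gt_three]) ?_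
      have : (-(s + pty χ) / 2).re = -(s.re + pty χ) / 2 := by simp
      rw [this]
      linarith
    have g3 := hdec ((s + pty χ) / 2) (by rw [hre]; linarith) (by rw [hre]; linarith) (by
      rw [him, abs_div, abs_two]
      linarith)
    have g4 := hpoly s h1 h2 h3
    rw [him, abs_div, abs_two, div_pow] at g3
    have g5 : ‖Complex.Gamma ((s + pty χ) / 2)‖ * |s.im| ^ n ≤ C' * 2 ^ n := by
      have h4 : ‖Complex.Gamma ((s + pty χ) / 2)‖ * |s.im| ^ n =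
        (‖Complex.Gamma ((s + pty χ) / 2)‖ * (|s.im| ^ n / 2 ^ n)) * 2 ^ n := by
        field_simp
      rw [h4]
      exact mul_le_mul_of_nonneg_right g3 (by positivity)
    calc ‖((q : ℝ) : ℂ) ^ (s / 2)‖ * ‖Gammaℝ (s + pty χ)‖ * ‖DirichletCharacter.LFunction χ s‖ ≤
        (q : ℝ) ^ (B / 2) * ‖Complex.Gamma ((s + pty χ) / 2)‖ * (C * |s.im| ^ n) := by gcongr
      _ = (q : ℝ) ^ (B / 2) * (C * (‖Complex.Gamma ((s + pty χ) / 2)‖ * |s.im| ^ n)) := by ring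
      _ ≤ (q : ℝ) ^ (B / 2) * (C * (C' * 2 ^ n)) := by gcongr
  refine ⟨(q : ℝ) ^ (B / 2) * (C * (C' * 2 ^ n)), fun s h1 h2 h3 => ?_⟩
  rcases le_total (1 / 2) s.re with h | h
  · exact hright s (by linarith) (h2.trans ((le_abs_self b).trans hB1)) h3
  · have hs : s.im ≠ 0 := by
      intro h0
      rw [h0, abs_zero] at h3
      linarith
    rw [hfe s hs, norm_mul, hwn, one_mul, RCLike.norm_conj]
    have e1 : (1 - conj s).re = 1 - s.re := by simp
    have e2 : (1 - conj s).im = s.im := by simp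
    refine hright _ (by rw [e1]; linarith) ?_ (by rw [e2]; exact h3)
    rw [e1]
    have := neg_abs_le a
    linarith

end

/-! ## products -/

section

variable {ι κ : Type} [Fintype ι] [Fintype κ]

lemma GG_sum {R₁ R₂ : ℝ} (h1 : 0 ≤ R₁) (h2 : 0 ≤ R₂) (e₁ : ι → ℕ) (e₂ : κ → ℕ) (s : ℂ) :
    GG (R₁ * R₂) (Sum.elim e₁ e₂) s = GG R₁ e₁ s * GG R₂ e₂ s := by
  unfold GG
  rw [Fintype.prod_sum_type, Complex.ofReal_mul, Complex.mul_cpow_ofReal_nonneg h1 h2]
  simp only [Sum.elim_inl, Sum.elim_inr]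
  ring

/-- the functional equation of a product -/
theorem fed_mul {R₁ R₂ : ℝ} (h1 : 0 ≤ R₁) (h2 : 0 ≤ R₂) {e₁ : ι → ℕ} {e₂ : κ → ℕ} {F₁ F₂ : ℂ → ℂ}
    (H1 : FEd R₁ e₁ F₁) (H2 : FEd R₂ e₂ F₂) :
    FEd (R₁ * R₂) (Sum.elim e₁ e₂) (fun s => F₁ s * F₂ s) := by
  refine ⟨?_, H1.diff.mul H2.diff, ?_, ?_⟩
  · rintro (i | i)
    · exact H1.he i
    · exact H2.he i
  · obtain ⟨w₁, hw₁, hfe₁⟩ := H1.fe
    obtain ⟨w₂, hw₂, hfe₂⟩ := H2.fe
    refine ⟨w₁ * w₂, by rw [norm_mul, hw₁, hw₂, one_mul], fun s hs => ?_⟩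
    rw [GG_sum h1 h2, GG_sum h1 h2]
    have k1 := hfe₁ s hs
    have k2 := hfe₂ s hs
    have e1 : GG R₁ e₁ s * GG R₂ e₂ s * (F₁ s * F₂ s) =
        (GG R₁ e₁ s * F₁ s) * (GG R₂ e₂ s * F₂ s) := by ring
    rw [e1, k1, k2]
    simp only [map_mul]
    ring
  · intro a b
    obtain ⟨C₁, hC₁⟩ := H1.vert a b
    obtain ⟨C₂, hC₂⟩ := H2.vert a b
    refine ⟨|C₁| * |C₂|, fun s k1 k2 k3 => ?_⟩
    rw [GG_sum h1 h2]
    have e1 : GG R₁ e₁ s * GG R₂ e₂ s * (F₁ s * F₂ s) =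
        (GG R₁ e₁ s * F₁ s) * (GG R₂ e₂ s * F₂ s) := by ring
    rw [e1, norm_mul]
    exact mul_le_mul ((hC₁ s k1 k2 k3).trans (le_abs_self _))
      ((hC₂ s k1 k2 k3).trans (le_abs_self _)) (norm_nonneg _) (abs_nonneg _)

end

end Pool.Agent.T9h27.P
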