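import Pool.Agent.T9h27.P.Pair
import Pool.Agent.T9h27.P.Cnt

/-!
# The theorem for the twists of two Dirichlet characters (helper27)
-/

set_option autoImplicit false

open Complex Filter Topology MeasureTheory
open scoped ComplexConjugate

namespace Pool.Agent.T9h27.P

open Pool.Agent.T9h27.Y
open H385 (Rw primFamM primSetM mem_primSetM primFamM_eq IX)
open H370 (zset NN Ns Nd mult)

section

variable {m₁ m₂ : ℕ} [NeZero m₁] [NeZero m₂]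

/-- the moduli -/
def lv (m₁ m₂ : ℕ) : Fin 4 → ℕ
  | 0 => m₁
  | 1 => m₂
  | 2 => m₁ * m₂
  | 3 => m₁ * m₂

instance lv_ne (j : Fin 4) : NeZero (lv m₁ m₂ j) := by
  have h1 := NeZero.ne m₁
  have h2 := NeZero.ne m₂
  fin_cases j
  · exact ⟨h1⟩
  · exact ⟨h2⟩
  · exact ⟨mul_ne_zero h1 h2⟩
  · exact ⟨mul_ne_zero h1 h2⟩

/-- the characters -/
noncomputable def xx (ψ₁ : DirichletCharacter ℂ m₁) (ψ₂ : DirichletCharacter ℂ m₂) :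
    (j : Fin 4) → DirichletCharacter ℂ (lv m₁ m₂ j)
  | 0 => (1 : DirichletCharacter ℂ m₁)
  | 1 => (1 : DirichletCharacter ℂ m₂)
  | 2 => tm ψ₁ ψ₂⁻¹
  | 3 => (tm ψ₁ ψ₂⁻¹)⁻¹

lemma one_val {m : ℕ} (ψ : DirichletCharacter ℂ m) (n : ZMod m) :
    (1 : DirichletCharacter ℂ m) n = ψ n * conj (ψ n) := by
  rw [← mul_inv_cancel ψ, MulChar.mul_apply, ← MulChar.star_apply']
  rfl

lemma inv_val {m : ℕ} (ψ : DirichletCharacter ℂ m) (n : ZMod m) :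
    ψ⁻¹ n = conj (ψ n) := by
  rw [← MulChar.star_apply']
  rfl

lemma selE_pair {ψ₁ : DirichletCharacter ℂ m₁} {ψ₂ : DirichletCharacter ℂ m₂}
    (hne : tm ψ₁ ψ₂⁻¹ ≠ 1) : W388.SelE (fun n : ℕ =>
      (ψ₁ (n : ZMod m₁) + ψ₂ (n : ZMod m₂)) / (Real.sqrt 2 : ℂ)) := by
  classical
  refine selE_of (fun n : ℕ => ψ₁ (n : ZMod m₁) + ψ₂ (n : ZMod m₂)) (lv m₁ m₂) (xx ψ₁ ψ₂)
    (fun n => ?_) 2 (by norm_num) ?_
  · rw [Fin.sum_univ_four]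
    change _ = (1 : DirichletCharacter ℂ m₁) (n : ZMod m₁) +
      (1 : DirichletCharacter ℂ m₂) (n : ZMod m₂) + tm ψ₁ ψ₂⁻¹ (n : ZMod (m₁ * m₂)) +
      (tm ψ₁ ψ₂⁻¹)⁻¹ (n : ZMod (m₁ * m₂))
    rw [inv_val (tm ψ₁ ψ₂⁻¹), tm_apply, one_val ψ₁, one_val ψ₂, inv_val ψ₂, map_mul,
      Complex.conj_conj]
    have h1 : ((‖ψ₁ (n : ZMod m₁) + ψ₂ (n : ZMod m₂)‖ ^ 2 : ℝ) : ℂ) =
        (ψ₁ (n : ZMod m₁) + ψ₂ (n : ZMod m₂)) * conj (ψ₁ (n : ZMod m₁) + ψ₂ (n : ZMod m₂)) := by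
      rw [Complex.mul_conj, Complex.normSq_eq_norm_sq]
    rw [h1, map_add]
    ring
  · have h3 : (tm ψ₁ ψ₂⁻¹)⁻¹ ≠ 1 := by
      rw [Ne, inv_eq_one]
      exact hne
    have e : (Finset.univ.filter (fun j : Fin 4 => xx ψ₁ ψ₂ j = 1)) = {0, 1} := by
      ext j
      rw [Finset.mem_filter]
      fin_cases j
      · simp [xx]
        rfl
      · simp [xx]
        rfl
      · simp only [Finset.mem_univ, true_and]
        constructor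
        · intro h
          exact absurd h hne
        · intro h
          simp at h
      · simp only [Finset.mem_univ, true_and]
        constructor
        · intro h
          exact absurd h h3
        · intro h
          simp at h
    rw [e]
    norm_num

lemma tm_ne {ψ₁ : DirichletCharacter ℂ m₁} {ψ₂ : DirichletCharacter ℂ m₂}
    (h₁ : ψ₁.IsPrimitive) (h₂ : ψ₂.IsPrimitive) (hne : ¬ (m₁ = m₂ ∧ HEq ψ₁ ψ₂)) :
    tm ψ₁ ψ₂⁻¹ ≠ 1 := by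
  intro h
  have : NeZero (m₁ * m₂) := ⟨mul_ne_zero (NeZero.ne m₁) (NeZero.ne m₂)⟩
  have h1 : DirichletCharacter.changeLevel (Nat.dvd_mul_right m₁ m₂) ψ₁ =
      DirichletCharacter.changeLevel (Nat.dvd_mul_left m₂ m₁) ψ₂ := by
    unfold tm at h
    rw [map_inv, mul_inv_eq_one] at h
    exact h
  have h2 : m₁ = m₂ := by
    have e1 := DirichletCharacter.conductor_changeLevel ψ₁ (Nat.dvd_mul_right m₁ m₂)
    have e2 := DirichletCharacter.conductor_changeLevel ψ₂ (Nat.dvd_mul_left m₂ m₁)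
    rw [h1, e2] at e1
    rw [DirichletCharacter.isPrimitive_def] at h₁ h₂
    rw [h₁, h₂] at e1
    exact e1.symm
  subst h2
  exact hne ⟨rfl, heq_of_eq (DirichletCharacter.changeLevel_injective _ h1)⟩

open Classical in
/-- **all heights and all windows for the products** -/
theorem micro_pair {ψ₁ : DirichletCharacter ℂ m₁} {ψ₂ : DirichletCharacter ℂ m₂}
    (h₁ : ψ₁.IsPrimitive) (h₂ : ψ₂.IsPrimitive) (hne : tm ψ₁ ψ₂⁻¹ ≠ 1) :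
    ∃ κ : ℝ, 2 ≤ κ ∧
      (∀ X Y : ℕ, 1 ≤ X → κ * X ≤ Y → 1 ≤ primFamM (m₁ * m₂) X Y (fun _ _ => 1)) ∧
      (∀ δ : ℝ, 0 < δ → ∃ B η X₀ : ℝ, 0 < B ∧ 0 < η ∧ 1 ≤ X₀ ∧ ∀ X Y : ℕ, X₀ ≤ (X : ℝ) →
        κ * (X : ℝ) ≤ (Y : ℝ) → ∀ t H : ℝ, |t| ≤ (X : ℝ) ^ η → B ≤ H * Real.log X →
        H ≤ (X : ℝ) ^ η →
        (∀ (q : ℕ) (χ : DirichletCharacter ℂ q), X < q → Nat.Coprime q (m₁ * m₂) →
          χ.IsPrimitive → (zset (FF ψ₁ ψ₂ q χ) t (t + H)).Finite) ∧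
        primFamM (m₁ * m₂) X Y (fun q χ => |(NN (FF ψ₁ ψ₂ q χ) t (t + H) : ℝ) -
            2 * H / (2 * Real.pi) * Real.log q|) ≤
          δ * primFamM (m₁ * m₂) X Y (fun q _ => 2 * H / (2 * Real.pi) * Real.log q) ∧
        0.3579 * primFamM (m₁ * m₂) X Y (fun q χ => (NN (FF ψ₁ ψ₂ q χ) t (t + H) : ℝ)) ≤
          primFamM (m₁ * m₂) X Y (fun q χ => (Ns (FF ψ₁ ψ₂ q χ) t (t + H) : ℝ)) ∧
        0.67895 * primFamM (m₁ * m₂) X Y (fun q χ => (NN (FF ψ₁ ψ₂ q χ) t (t + H) : ℝ)) ≤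
          primFamM (m₁ * m₂) X Y (fun q χ => (Nd (FF ψ₁ ψ₂ q χ) t (t + H) : ℝ))) ∧
      (∃ B η X₀ : ℝ, 0 < B ∧ 0 < η ∧ 1 ≤ X₀ ∧ ∀ X Y : ℕ, X₀ ≤ (X : ℝ) →
        κ * (X : ℝ) ≤ (Y : ℝ) → ∀ t H : ℝ, |t| ≤ (X : ℝ) ^ η → B ≤ H * Real.log X →
        0.3579 * primFamM (m₁ * m₂) X Y (fun _ _ => 1) ≤
          primFamM (m₁ * m₂) X Y (fun q χ => if (∃ s ∈ zset (FF ψ₁ ψ₂ q χ) t (t + H),
            s.re = 1 / 2 ∧ mult (FF ψ₁ ψ₂ q χ) s = 1) then 1 else 0)) := by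
  have hPD := pd_pair h₁ h₂
  obtain ⟨γ, l, D, k1, k2, k3, k4, k5, k6⟩ := consts22
  obtain ⟨κ, hκ, hm, H1, H2⟩ := micro_prod (ι := Unit ⊕ Unit) (ϖ := 0.3579) (r := 2) hPD
    (d := 2) (by simp) (Or.inl rfl) (B₀ := 2) (by norm_num) (fun m => by
      refine (norm_add_le _ _).trans ?_
      have := ψ₁.norm_le_one (m : ZMod m₁)
      have := ψ₂.norm_le_one (m : ZMod m₂)
      linarith) (by norm_num) (selE_pair hne) (by norm_num)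
    ⟨γ, l, D, k1, k2, k3, by push_cast; linarith, k5, by linarith⟩
  have e1 : (1 + (0.3579 : ℝ)) / 2 = 0.67895 := by norm_num
  simp only [e1, Nat.cast_ofNat] at H1
  exact ⟨κ, hκ, hm, H1, H2⟩

end

end Pool.Agent.T9h27.P
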