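import Pool.Agent.W688.TW.Kara
import Pool.Agent.W388.TW.D0

/-!
# Selberg's orthogonality for sums of two Dirichlet characters (helper27)
-/

set_option autoImplicit false

open Complex Filter Topology Set
open scoped ComplexConjugate

namespace Pool.Agent.T9h27.P

open ArithmeticFunction (vonMangoldt vonMangoldt_nonneg)

section

variable {m : ℕ} [NeZero m]

/-- the Dirichlet series of `ξ Λ` near its edge -/
lemma lim_char (ξ : DirichletCharacter ℂ m) : ∃ a : ℂ, (ξ = 1 → a = 1) ∧ (ξ ≠ 1 → a = 0) ∧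
    Tendsto (fun σ : ℝ => (σ : ℂ) * LSeries (fun n => ξ n * (vonMangoldt n : ℂ)) (1 + σ))
      (𝓝[>] 0) (𝓝 a) := by
  have hs : Tendsto (fun σ : ℝ => (1 : ℂ) + σ) (𝓝[>] 0) (𝓝 1) := by
    have h1 : Continuous (fun σ : ℝ => (1 : ℂ) + σ) := by fun_prop
    have h2 := (h1.tendsto 0).mono_left (nhdsWithin_le_nhds (s := Set.Ioi 0))
    simpa using h2
  have hσ : Tendsto (fun σ : ℝ => (σ : ℂ)) (𝓝[>] 0) (𝓝 0) := by
    have h1 : Continuous (fun σ : ℝ => (σ : ℂ)) := by fun_prop
    have h2 := (h1.tendsto 0).mono_left (nhdsWithin_le_nhds (s := Set.Ioi 0))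
    simpa using h2
  have key : ∀ σ : ℝ, 0 < σ → LSeries (fun n => ξ n * (vonMangoldt n : ℂ)) (1 + σ) =
      -deriv (DirichletCharacter.LFunction ξ) (1 + σ) / DirichletCharacter.LFunction ξ (1 + σ) := by
    intro σ h
    have hre : 1 < ((1 : ℂ) + σ).re := by simp; exact h
    have h1 := DirichletCharacter.LSeries_twist_vonMangoldt_eq ξ hre
    rw [DirichletCharacter.deriv_LFunction_eq_deriv_LSeries ξ hre,
      DirichletCharacter.LFunction_eq_LSeries ξ hre]
    exact h1
  by_cases hξ : ξ = 1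
  · refine ⟨1, fun _ => rfl, fun h => absurd hξ h, ?_⟩
    subst hξ
    have hd := DirichletCharacter.differentiable_LFunctionTrivChar₁ m
    have hc : ContinuousAt (fun s => -deriv (DirichletCharacter.LFunctionTrivChar₁ m) s /
        DirichletCharacter.LFunctionTrivChar₁ m s) 1 := by
      refine ContinuousAt.div ?_ hd.continuous.continuousAt
        (DirichletCharacter.LFunctionTrivChar₁_apply_one_ne_zero m)
      exact (hd.contDiff.continuous_deriv le_rfl).continuousAt.neg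
    have h1 := hσ.mul (hc.tendsto.comp hs)
    rw [zero_mul] at h1
    have h2 := h1.add_const 1
    rw [zero_add] at h2
    refine h2.congr' ?_
    filter_upwards [self_mem_nhdsWithin] with σ hσ'
    have hσ0 : (0 : ℝ) < σ := hσ'
    have hσc : (σ : ℂ) ≠ 0 := by exact_mod_cast hσ0.ne'
    have hne : (1 : ℂ) + σ ≠ 1 := by
      intro h
      apply hσc
      simpa using h
    rw [key σ hσ0]
    change (σ : ℂ) * (-deriv (DirichletCharacter.LFunctionTrivChar₁ m) (1 + σ) /
        DirichletCharacter.LFunctionTrivChar₁ m (1 + σ)) + 1 = _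
    have e0 : DirichletCharacter.LFunctionTrivChar₁ m (1 + σ) =
        (1 + σ - 1) * DirichletCharacter.LFunctionTrivChar m (1 + σ) :=
      Function.update_of_ne hne _ _
    rw [DirichletCharacter.deriv_LFunctionTrivChar₁_apply_of_ne_one m hne, e0]
    have hL : DirichletCharacter.LFunctionTrivChar m (1 + σ) ≠ 0 :=
      DirichletCharacter.LFunction_ne_zero_of_one_le_re _ (Or.inr hne) (by simp; exact hσ0.le)
    have e1 : (1 : ℂ) + σ - 1 = σ := by ring
    rw [e1]
    change _ = (σ : ℂ) * (-deriv (DirichletCharacter.LFunctionTrivChar m) (1 + σ) /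
      DirichletCharacter.LFunctionTrivChar m (1 + σ))
    field_simp
    ring
  · refine ⟨0, fun h => absurd h hξ, fun _ => rfl, ?_⟩
    have hd := DirichletCharacter.differentiable_LFunction hξ
    have hc : ContinuousAt (fun s => -deriv (DirichletCharacter.LFunction ξ) s /
        DirichletCharacter.LFunction ξ s) 1 := by
      refine ContinuousAt.div ?_ hd.continuous.continuousAt
        (DirichletCharacter.LFunction_apply_one_ne_zero hξ)
      exact (hd.contDiff.continuous_deriv le_rfl).continuousAt.neg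
    have h1 := hσ.mul (hc.tendsto.comp hs)
    rw [zero_mul] at h1
    refine h1.congr' ?_
    filter_upwards [self_mem_nhdsWithin] with σ hσ'
    rw [key σ hσ']
    rfl

end

/-- the terms of the series -/
lemma term_cast (w : ℕ → ℝ) (f : ℕ → ℂ) (hf : ∀ n, f n = (w n : ℂ)) {σ : ℝ} (n : ℕ) :
    ((vonMangoldt n * w n / n * (n : ℝ) ^ (-σ) : ℝ) : ℂ) =
      LSeries.term (fun n => f n * (vonMangoldt n : ℂ)) (1 + σ) n := by
  rcases Nat.eq_zero_or_pos n with rfl | hn
  · simp
  rw [LSeries.term_of_ne_zero hn.ne', hf]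
  have hn0 : (0 : ℝ) < n := by exact_mod_cast hn
  have e1 : ((n : ℂ)) ^ ((1 : ℂ) + σ) = (((n : ℝ) ^ (1 + σ) : ℝ) : ℂ) := by
    rw [Complex.ofReal_cpow hn0.le]
    push_cast
    rfl
  rw [e1, ← Complex.ofReal_mul, ← Complex.ofReal_div]
  congr 1
  rw [Real.rpow_neg hn0.le, Real.rpow_add hn0, Real.rpow_one]
  have h1 : (0 : ℝ) < (n : ℝ) ^ σ := Real.rpow_pos_of_pos hn0 σ
  field_simp

/-- the orthogonality relation -/
theorem selE_of (c : ℕ → ℂ) {k : ℕ} (m : Fin k → ℕ) [∀ j, NeZero (m j)]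
    (ξ : (j : Fin k) → DirichletCharacter ℂ (m j)) (hw : ∀ n : ℕ,
      (((‖c n‖ ^ 2 : ℝ)) : ℂ) = ∑ j, ξ j (n : ZMod (m j))) (r : ℝ) (hr : 0 < r)
    (hcount : ((Finset.univ.filter (fun j => ξ j = 1)).card : ℝ) = r) :
    W388.SelE (fun n => c n / (Real.sqrt r : ℂ)) := by
  classical
  have hr' : ∀ n, ‖c n / (Real.sqrt r : ℂ)‖ ^ 2 = ‖c n‖ ^ 2 / r := by
    intro n
    rw [norm_div, Complex.norm_real, Real.norm_of_nonneg (Real.sqrt_nonneg r), div_pow,
      Real.sq_sqrt hr.le]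
  unfold W388.SelE
  simp only [hr']
  choose a ha1 ha0 hlim using fun j => lim_char (ξ j)
  have hsum : ∀ (σ : ℝ), 0 < σ → ∀ j, LSeriesSummable (fun n => ξ j n * (vonMangoldt n : ℂ))
      (1 + σ) := by
    intro σ hσ j
    exact DirichletCharacter.LSeriesSummable_twist_vonMangoldt (ξ j) (by simp; exact hσ)
  have hterm : ∀ (σ : ℝ) (n : ℕ), ((vonMangoldt n * ‖c n‖ ^ 2 / n * (n : ℝ) ^ (-σ) : ℝ) : ℂ) =
      ∑ j, LSeries.term (fun n => ξ j n * (vonMangoldt n : ℂ)) (1 + σ) n := by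
    intro σ n
    rw [term_cast (fun n => ‖c n‖ ^ 2) (fun n => ∑ j, ξ j (n : ZMod (m j)))
      (fun n => (hw n).symm) n]
    rcases Nat.eq_zero_or_pos n with rfl | hn
    · simp
    rw [LSeries.term_of_ne_zero hn.ne', Finset.sum_mul, Finset.sum_div]
    refine Finset.sum_congr rfl fun j _ => ?_
    rw [LSeries.term_of_ne_zero hn.ne']
  have hsm : ∀ σ : ℝ, 0 < σ → Summable (fun n : ℕ => vonMangoldt n * ‖c n‖ ^ 2 / n *
      (n : ℝ) ^ (-σ)) := by
    intro σ hσ
    rw [← Complex.summable_ofReal]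
    simp only [hterm]
    exact summable_sum fun j _ => hsum σ hσ j
  have hts : ∀ σ : ℝ, 0 < σ → ((∑' n : ℕ, vonMangoldt n * ‖c n‖ ^ 2 / n * (n : ℝ) ^ (-σ) : ℝ) : ℂ) =
      ∑ j, LSeries (fun n => ξ j n * (vonMangoldt n : ℂ)) (1 + σ) := by
    intro σ hσ
    rw [Complex.ofReal_tsum]
    simp only [hterm]
    rw [Summable.tsum_finsetSum fun j _ => hsum σ hσ j]
    rfl
  have hsa : ∑ j, a j = (r : ℂ) := by
    have h1 : ∀ j, a j = if ξ j = 1 then 1 else 0 := by
      intro j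
      split_ifs with h
      · exact ha1 j h
      · exact ha0 j h
    rw [Finset.sum_congr rfl fun j _ => h1 j, Finset.sum_boole, ← hcount]
    push_cast
    rfl
  have hl1 : Tendsto (fun σ : ℝ => ((σ * ∑' n : ℕ, vonMangoldt n * ‖c n‖ ^ 2 / n *
      (n : ℝ) ^ (-σ) : ℝ) : ℂ)) (𝓝[>] 0) (𝓝 (r : ℂ)) := by
    have h1 := tendsto_finsetSum (Finset.univ : Finset (Fin k)) (fun j _ => hlim j)
    rw [hsa] at h1
    refine h1.congr' ?_
    filter_upwards [self_mem_nhdsWithin] with σ hσ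
    rw [Complex.ofReal_mul, hts σ hσ, Finset.mul_sum]
  have hl2 : Tendsto (fun σ : ℝ => σ * ∑' n : ℕ, vonMangoldt n * ‖c n‖ ^ 2 / n *
      (n : ℝ) ^ (-σ)) (𝓝[>] 0) (𝓝 r) := by
    have h1 := (Complex.continuous_re.tendsto (r : ℂ)).comp hl1
    simpa [Function.comp_def] using h1
  have hl3 : Tendsto (fun σ : ℝ => σ * ∑' n : ℕ, vonMangoldt n * (‖c n‖ ^ 2 / r) / n *
      (n : ℝ) ^ (-σ)) (𝓝[>] 0) (𝓝 1) := by
    have h1 := hl2.div_const r
    rw [div_self hr.ne'] at h1
    refine h1.congr fun σ => ?_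
    rw [mul_div_assoc, ← tsum_div_const]
    congr 1
    refine tsum_congr fun n => ?_
    ring
  refine W688.TW.t_kara (fun n => vonMangoldt n * (‖c n‖ ^ 2 / r) / n) (fun n => ?_) (by simp)
    (fun σ hσ => ?_) hl3
  · have := @vonMangoldt_nonneg n
    positivity
  · refine ((hsm σ hσ).div_const r).congr fun n => ?_
    ring

end Pool.Agent.T9h27.P
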