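import Pool.Agent.T9h27.P.Prod
import Pool.Agent.T9h27.P.Dir
import Pool.Agent.T9h27.P.Sel

/-!
# The products of the twists of two Dirichlet characters (helper27)
-/

set_option autoImplicit false

open Complex Filter Topology MeasureTheory
open scoped ComplexConjugate

namespace Pool.Agent.T9h27.P

open Pool.Agent.T9h27.Y
open Pool.Agent.Y773 (FEd GG)
open W388.LV (CoefE)
open H385 (Rw primFamM primSetM IX)
open H370 (zset NN Ns Nd mult)
open ArithmeticFunction (vonMangoldt vonMangoldt_nonneg)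

/-! ## the product of two characters with coprime conductors -/

/-- the product of two Dirichlet characters, as a character modulo the product of the moduli -/
noncomputable def tm {q m : ℕ} (χ : DirichletCharacter ℂ q) (ψ : DirichletCharacter ℂ m) :
    DirichletCharacter ℂ (q * m) :=
  DirichletCharacter.changeLevel (Nat.dvd_mul_right q m) χ *
    DirichletCharacter.changeLevel (Nat.dvd_mul_left m q) ψ

lemma tm_apply {q m : ℕ} (χ : DirichletCharacter ℂ q) (ψ : DirichletCharacter ℂ m) (n : ℕ) :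
    tm χ ψ (n : ZMod (q * m)) = χ (n : ZMod q) * ψ (n : ZMod m) := by
  by_cases h : Nat.Coprime n (q * m)
  · have hi : IsCoprime ((n : ℕ) : ℤ) ((q * m : ℕ) : ℤ) := Nat.isCoprime_iff_coprime.mpr h
    have h1 := DirichletCharacter.changeLevel_eq_cast_of_dvd' χ (Nat.dvd_mul_right q m) hi
    have h2 := DirichletCharacter.changeLevel_eq_cast_of_dvd' ψ (Nat.dvd_mul_left m q) hi
    rw [Int.cast_natCast] at h1 h2
    rw [Int.cast_natCast] at h1 h2
    unfold tm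
    rw [MulChar.mul_apply, h1, h2]
  · have h0 : tm χ ψ (n : ZMod (q * m)) = 0 := by
      refine MulChar.map_nonunit _ fun hu => h ?_
      exact (ZMod.isUnit_iff_coprime _ _).mp hu
    rw [h0]
    rw [Nat.coprime_mul_iff_right, not_and_or] at h
    rcases h with h | h
    · rw [MulChar.map_nonunit χ fun hu => h ((ZMod.isUnit_iff_coprime _ _).mp hu), zero_mul]
    · rw [MulChar.map_nonunit ψ fun hu => h ((ZMod.isUnit_iff_coprime _ _).mp hu), mul_zero]

lemma tm_prim {q m : ℕ} [NeZero q] [NeZero m] {χ : DirichletCharacter ℂ q}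
    {ψ : DirichletCharacter ℂ m} (hχ : χ.IsPrimitive) (hψ : ψ.IsPrimitive)
    (h : Nat.Coprime q m) : (tm χ ψ).IsPrimitive := by
  have : NeZero (q * m) := ⟨mul_ne_zero (NeZero.ne q) (NeZero.ne m)⟩
  obtain ⟨a, ha⟩ : ∃ a, a = DirichletCharacter.changeLevel (Nat.dvd_mul_right q m) χ := ⟨_, rfl⟩
  obtain ⟨b, hb⟩ : ∃ b, b = DirichletCharacter.changeLevel (Nat.dvd_mul_left m q) ψ := ⟨_, rfl⟩
  have ha1 : a.conductor = q := by
    rw [ha, DirichletCharacter.conductor_changeLevel]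
    exact hχ
  have hb1 : b.conductor = m := by
    rw [hb, DirichletCharacter.conductor_changeLevel]
    exact hψ
  have hw : tm χ ψ = a * b := by rw [ha, hb]; rfl
  rw [hw, DirichletCharacter.isPrimitive_def]
  obtain ⟨c, hc⟩ : ∃ c : ℕ, c = (a * b).conductor := ⟨_, rfl⟩
  rw [← hc]
  have h1 : q ∣ c * m := by
    have h2 := DirichletCharacter.conductor_mul_dvd_lcm_conductor (a * b) b⁻¹
    rw [mul_inv_cancel_right, DirichletCharacter.conductor_inv, ha1, hb1, ← hc] at h2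
    exact h2.trans (Nat.lcm_dvd_mul c m)
  have h3 : m ∣ c * q := by
    have h2 := DirichletCharacter.conductor_mul_dvd_lcm_conductor (a * b) a⁻¹
    rw [mul_comm a b, mul_inv_cancel_right, DirichletCharacter.conductor_inv, ha1, hb1,
      mul_comm b a, ← hc] at h2
    exact h2.trans (Nat.lcm_dvd_mul c q)
  have h4 : q ∣ c := h.dvd_of_dvd_mul_right h1
  have h5 : m ∣ c := h.symm.dvd_of_dvd_mul_right h3
  have h6 : q * m ∣ c := Nat.Coprime.mul_dvd_of_dvd_of_dvd h h4 h5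
  have h7 : c ∣ q * m := by rw [hc]; exact DirichletCharacter.conductor_dvd_level _
  exact Nat.dvd_antisymm h7 h6

lemma tm_ne_one {q m : ℕ} [NeZero q] [NeZero m] {χ : DirichletCharacter ℂ q}
    {ψ : DirichletCharacter ℂ m} (h2 : 2 ≤ q) (hχ : χ.IsPrimitive) (hψ : ψ.IsPrimitive)
    (h : Nat.Coprime q m) : tm χ ψ ≠ 1 := by
  intro h1
  have : NeZero (q * m) := ⟨mul_ne_zero (NeZero.ne q) (NeZero.ne m)⟩
  have h3 := tm_prim hχ hψ h
  rw [h1, DirichletCharacter.isPrimitive_def, DirichletCharacter.conductor_one] at h3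
  have h4 : q = 1 := Nat.eq_one_of_mul_eq_one_right h3.symm
  omega

/-! ## bounds for one Dirichlet L-function -/

section

variable {m : ℕ} [NeZero m] (ξ : DirichletCharacter ℂ m)

lemma term_le (f : ℕ → ℂ) (hf : ∀ n, ‖f n‖ ≤ 1) {σ : ℝ} {s : ℂ} (hs : σ ≤ s.re) (n : ℕ) :
    ‖LSeries.term f s n‖ ≤ (n : ℝ) ^ (-σ) := by
  rcases Nat.eq_zero_or_pos n with rfl | hn
  · simp only [LSeries.term_zero, norm_zero]
    positivity
  have hn1 : (1 : ℝ) ≤ n := by exact_mod_cast hn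
  rw [LSeries.term_of_ne_zero hn.ne', norm_div, Complex.norm_natCast_cpow_of_pos hn,
    div_eq_mul_inv, ← Real.rpow_neg (by linarith)]
  calc ‖f n‖ * (n : ℝ) ^ (-s.re) ≤ 1 * (n : ℝ) ^ (-σ) := by
        refine mul_le_mul (hf n) (Real.rpow_le_rpow_of_exponent_le hn1 (by linarith))
          (by positivity) zero_le_one
    _ = _ := one_mul _

lemma norm_LS (f : ℕ → ℂ) (hf : ∀ n, ‖f n‖ ≤ 1) {s : ℂ} (hs : 3 / 2 ≤ s.re) :
    ‖LSeries f s‖ ≤ ∑' n : ℕ, (n : ℝ) ^ (-(3 / 2) : ℝ) := by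
  have hsum : Summable (fun n : ℕ => (n : ℝ) ^ (-(3 / 2) : ℝ)) :=
    Real.summable_nat_rpow.mpr (by norm_num)
  have h1 : ∀ n : ℕ, ‖LSeries.term f s n‖ ≤ (n : ℝ) ^ (-(3 / 2) : ℝ) := term_le f hf hs
  have h2 : Summable (fun n => ‖LSeries.term f s n‖) :=
    Summable.of_nonneg_of_le (fun _ => norm_nonneg _) h1 hsum
  exact (norm_tsum_le_tsum_norm h2).trans (Summable.tsum_le_tsum h1 h2 hsum)

/-- the constant -/
noncomputable def Z₀ : ℝ := ∑' n : ℕ, (n : ℝ) ^ (-(3 / 2) : ℝ)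

lemma one_le_Z₀ : 1 ≤ Z₀ := by
  have hsum : Summable (fun n : ℕ => (n : ℝ) ^ (-(3 / 2) : ℝ)) :=
    Real.summable_nat_rpow.mpr (by norm_num)
  have h1 := hsum.le_tsum 1 (fun n _ => by positivity)
  unfold Z₀
  simpa using h1

lemma L_up {s : ℂ} (hs : 3 / 2 ≤ s.re) : ‖DirichletCharacter.LFunction ξ s‖ ≤ Z₀ := by
  rw [DirichletCharacter.LFunction_eq_LSeries ξ (by linarith)]
  exact norm_LS _ (fun n => ξ.norm_le_one _) hs

lemma L_lo {s : ℂ} (hs : 3 / 2 ≤ s.re) : Z₀⁻¹ ≤ ‖DirichletCharacter.LFunction ξ s‖ := by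
  rw [DirichletCharacter.LFunction_eq_LSeries ξ (by linarith)]
  have h1 := DirichletCharacter.LSeries.mul_mu_eq_one ξ (by linarith : 1 < s.re)
  have h2 : ‖LSeries ((fun n : ℕ => ξ n) *
      (fun n : ℕ => ((ArithmeticFunction.moebius n : ℤ) : ℂ))) s‖ ≤ Z₀ := by
    refine norm_LS _ (fun n => ?_) hs
    have h3 : ‖((ArithmeticFunction.moebius n : ℤ) : ℂ)‖ ≤ 1 := by
      rw [Complex.norm_intCast]
      exact_mod_cast ArithmeticFunction.abs_moebius_le_one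
    calc ‖((fun n : ℕ => ξ n) * (fun n : ℕ => ((ArithmeticFunction.moebius n : ℤ) : ℂ))) n‖ =
        ‖ξ n‖ * ‖((ArithmeticFunction.moebius n : ℤ) : ℂ)‖ := norm_mul _ _
      _ ≤ 1 * 1 := mul_le_mul (ξ.norm_le_one _) h3 (norm_nonneg _) zero_le_one
      _ = 1 := one_mul 1
  have h3 := congrArg norm h1
  rw [norm_mul, norm_one] at h3
  have h4 := one_le_Z₀
  have h5 : 0 ≤ ‖LSeries (fun n : ℕ => ξ n) s‖ := norm_nonneg _
  rw [inv_le_iff_one_le_mul₀ (by linarith), ← h3]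
  exact mul_le_mul_of_nonneg_left h2 h5

/-- the logarithmic derivative -/
lemma L_ld' {s : ℂ} (hs : 1 < s.re) : deriv (DirichletCharacter.LFunction ξ) s /
    DirichletCharacter.LFunction ξ s = - LSeries (fun n => ξ n * (vonMangoldt n : ℂ)) s := by
  have h1 := DirichletCharacter.LSeries_twist_vonMangoldt_eq ξ hs
  rw [DirichletCharacter.deriv_LFunction_eq_deriv_LSeries ξ hs,
    DirichletCharacter.LFunction_eq_LSeries ξ hs]
  have h2 : LSeries (fun n => ξ n * (vonMangoldt n : ℂ)) s =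
      -deriv (LSeries fun n => ξ n) s / LSeries (fun n => ξ n) s := h1
  rw [h2]
  ring

end

/-! ## the family -/

section

variable {m₁ m₂ : ℕ} [NeZero m₁] [NeZero m₂]

open Classical in
/-- the L-function, `0` if the modulus is `0` -/
noncomputable def Lf {n : ℕ} (ω : DirichletCharacter ℂ n) : ℂ → ℂ :=
  if h : n = 0 then 0 else
    haveI : NeZero n := ⟨h⟩
    DirichletCharacter.LFunction ω

lemma Lf_eq {n : ℕ} [NeZero n] (ω : DirichletCharacter ℂ n) :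
    Lf ω = DirichletCharacter.LFunction ω := by
  unfold Lf
  rw [dif_neg (NeZero.ne n)]

/-- the product of the two L-functions -/
noncomputable def FF (ψ₁ : DirichletCharacter ℂ m₁) (ψ₂ : DirichletCharacter ℂ m₂) (q : ℕ)
    (χ : DirichletCharacter ℂ q) (s : ℂ) : ℂ :=
  Lf (tm χ ψ₁) s * Lf (tm χ ψ₂) s

/-- the local parameters -/
noncomputable def gp (ψ₁ : DirichletCharacter ℂ m₁) (ψ₂ : DirichletCharacter ℂ m₂)
    (p : Nat.Primes) : Unit ⊕ Unit → ℂ :=
  Sum.elim (fun _ => ψ₁ ((p : ℕ) : ZMod m₁)) (fun _ => ψ₂ ((p : ℕ) : ZMod m₂))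

lemma vm_sum : Summable (fun n : ℕ => vonMangoldt n * (n : ℝ) ^ (-(7 / 4) : ℝ)) := by
  have h1 := (ArithmeticFunction.LSeriesSummable_vonMangoldt (s := ((7 / 4 : ℝ) : ℂ))
    (by simp; norm_num)).norm
  refine h1.congr fun n => ?_
  rcases Nat.eq_zero_or_pos n with rfl | hn
  · simp
  rw [LSeries.term_of_ne_zero hn.ne', norm_div, Complex.norm_natCast_cpow_of_pos hn,
    Complex.ofReal_re, Real.rpow_neg (Nat.cast_nonneg n), Complex.norm_real,
    Real.norm_of_nonneg vonMangoldt_nonneg, div_eq_mul_inv]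

/-- the constant -/
noncomputable def A₁ : ℝ := Z₀ * Z₀ + 2 * ∑' n : ℕ, vonMangoldt n * (n : ℝ) ^ (-(7 / 4) : ℝ)

lemma A₁_ge : Z₀ * Z₀ ≤ A₁ ∧ 2 * ∑' n : ℕ, vonMangoldt n * (n : ℝ) ^ (-(7 / 4) : ℝ) ≤ A₁ ∧
    1 ≤ A₁ := by
  have h1 := one_le_Z₀
  have h2 : 0 ≤ ∑' n : ℕ, vonMangoldt n * (n : ℝ) ^ (-(7 / 4) : ℝ) :=
    tsum_nonneg fun n => mul_nonneg vonMangoldt_nonneg (by positivity)
  have h3 : 1 ≤ Z₀ * Z₀ := one_le_mul_of_one_le_of_one_le h1 h1
  unfold A₁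
  refine ⟨by linarith, by linarith, by linarith⟩

theorem pd_pair {ψ₁ : DirichletCharacter ℂ m₁} {ψ₂ : DirichletCharacter ℂ m₂}
    (h₁ : ψ₁.IsPrimitive) (h₂ : ψ₂.IsPrimitive) :
    PD (Unit ⊕ Unit) ((m₁ * m₂ : ℕ) : ℝ) (m₁ * m₂) A₁ (gp ψ₁ ψ₂)
      (fun n => ψ₁ (n : ZMod m₁) + ψ₂ (n : ZMod m₂)) (FF ψ₁ ψ₂) := by
  obtain ⟨a1, a2, a3⟩ := A₁_ge
  have hZ := one_le_Z₀
  have hmem : ∀ (q : ℕ) (χ : DirichletCharacter ℂ q), 2 ≤ q → Nat.Coprime q (m₁ * m₂) →
      χ.IsPrimitive → (tm χ ψ₁).IsPrimitive ∧ (tm χ ψ₂).IsPrimitive ∧ tm χ ψ₁ ≠ 1 ∧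
        tm χ ψ₂ ≠ 1 := by
    intro q χ h2 hq hχ
    have : NeZero q := ⟨by omega⟩
    have c1 : Nat.Coprime q m₁ := Nat.Coprime.coprime_dvd_right (dvd_mul_right _ _) hq
    have c2 : Nat.Coprime q m₂ := Nat.Coprime.coprime_dvd_right (dvd_mul_left _ _) hq
    exact ⟨tm_prim hχ h₁ c1, tm_prim hχ h₂ c2, tm_ne_one h2 hχ h₁ c1, tm_ne_one h2 hχ h₂ c2⟩
  have hlo' : ∀ x y : ℝ, Z₀⁻¹ ≤ x → Z₀⁻¹ ≤ y → A₁⁻¹ ≤ x * y := by
    intro x y hx hy
    have h1 : A₁⁻¹ ≤ (Z₀ * Z₀)⁻¹ := inv_anti₀ (by positivity) a1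
    refine h1.trans ?_
    rw [mul_inv]
    have h0 : 0 ≤ Z₀⁻¹ := by positivity
    exact mul_le_mul hx hy h0 (h0.trans hx)
  refine ⟨?_, mul_ne_zero (NeZero.ne _) (NeZero.ne _), a3, ?_, ?_, ?_, ?_, ?_, ?_, ?_, ?_⟩
  · exact_mod_cast Nat.one_le_iff_ne_zero.mpr (mul_ne_zero (NeZero.ne m₁) (NeZero.ne m₂))
  · rintro p (_ | _)
    · exact ψ₁.norm_le_one _
    · exact ψ₂.norm_le_one _
  · intro q χ h2 hq hχ
    obtain ⟨p1, p2, n1, n2⟩ := hmem q χ h2 hq hχ
    have : NeZero q := ⟨by omega⟩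
    have : NeZero (q * m₁) := ⟨mul_ne_zero (NeZero.ne q) (NeZero.ne m₁)⟩
    have : NeZero (q * m₂) := ⟨mul_ne_zero (NeZero.ne q) (NeZero.ne m₂)⟩
    have f1 := fed_dir p1 n1
    have f2 := fed_dir p2 n2
    have f3 := fed_mul (Nat.cast_nonneg _) (Nat.cast_nonneg _) f1 f2
    refine ⟨Sum.elim (fun _ => pty (tm χ ψ₁)) (fun _ => pty (tm χ ψ₂)), ?_⟩
    · have e1 : (((m₁ * m₂ : ℕ) : ℝ)) * (q : ℝ) ^ Fintype.card (Unit ⊕ Unit) =
          (((q * m₁ : ℕ) : ℝ)) * ((q * m₂ : ℕ) : ℝ) := by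
        have : Fintype.card (Unit ⊕ Unit) = 2 := by simp
        rw [this]
        push_cast
        ring
      have e2 : FF ψ₁ ψ₂ q χ = fun s => DirichletCharacter.LFunction (tm χ ψ₁) s *
          DirichletCharacter.LFunction (tm χ ψ₂) s := by
        funext s
        unfold FF
        rw [Lf_eq, Lf_eq]
      rw [e1, e2]
      exact f3
  · intro q χ h2 hq hχ s hs
    obtain ⟨p1, p2, n1, n2⟩ := hmem q χ h2 hq hχ
    have : NeZero q := ⟨by omega⟩
    have : NeZero (q * m₁) := ⟨mul_ne_zero (NeZero.ne q) (NeZero.ne m₁)⟩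
    have : NeZero (q * m₂) := ⟨mul_ne_zero (NeZero.ne q) (NeZero.ne m₂)⟩
    unfold FF
    rw [Lf_eq, Lf_eq]
    exact mul_ne_zero (DirichletCharacter.LFunction_ne_zero_of_one_le_re _ (Or.inl n1) hs)
      (DirichletCharacter.LFunction_ne_zero_of_one_le_re _ (Or.inl n2) hs)
  · intro q χ h2 hq hχ s hs
    have : NeZero q := ⟨by omega⟩
    have : NeZero (q * m₁) := ⟨mul_ne_zero (NeZero.ne q) (NeZero.ne m₁)⟩
    have : NeZero (q * m₂) := ⟨mul_ne_zero (NeZero.ne q) (NeZero.ne m₂)⟩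
    unfold FF
    rw [Lf_eq, Lf_eq, norm_mul]
    exact (mul_le_mul (L_up _ hs) (L_up _ hs) (norm_nonneg _) (by linarith)).trans a1
  · intro q χ h2 hq hχ s hs
    have : NeZero q := ⟨by omega⟩
    have : NeZero (q * m₁) := ⟨mul_ne_zero (NeZero.ne q) (NeZero.ne m₁)⟩
    have : NeZero (q * m₂) := ⟨mul_ne_zero (NeZero.ne q) (NeZero.ne m₂)⟩
    unfold FF
    rw [Lf_eq, Lf_eq, norm_mul]
    exact hlo' _ _ (L_lo _ (by linarith)) (L_lo _ (by linarith))
  · intro q χ h2 hq hχ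
    have hbd : ∀ n : ℕ, ‖ac (fun n => ψ₁ (n : ZMod m₁) + ψ₂ (n : ZMod m₂)) ⟨q, χ⟩ n‖ *
        (n : ℝ) ^ (-(7 / 4) : ℝ) ≤ 2 * (vonMangoldt n * (n : ℝ) ^ (-(7 / 4) : ℝ)) := by
      intro n
      have h3 : ‖ac (fun n => ψ₁ (n : ZMod m₁) + ψ₂ (n : ZMod m₂)) ⟨q, χ⟩ n‖ ≤
          2 * vonMangoldt n := by
        change ‖χ (n : ZMod q) * ((ψ₁ (n : ZMod m₁) + ψ₂ (n : ZMod m₂)) *
          (vonMangoldt n : ℂ))‖ ≤ _
        rw [norm_mul, norm_mul, Complex.norm_real, Real.norm_of_nonneg vonMangoldt_nonneg]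
        have k1 := χ.norm_le_one (n : ZMod q)
        have k2 : ‖ψ₁ (n : ZMod m₁) + ψ₂ (n : ZMod m₂)‖ ≤ 2 := by
          refine (norm_add_le _ _).trans ?_
          have := ψ₁.norm_le_one (n : ZMod m₁)
          have := ψ₂.norm_le_one (n : ZMod m₂)
          linarith
        have k3 : (0 : ℝ) ≤ vonMangoldt n := vonMangoldt_nonneg
        calc ‖χ (n : ZMod q)‖ * (‖ψ₁ (n : ZMod m₁) + ψ₂ (n : ZMod m₂)‖ * vonMangoldt n) ≤
            1 * (2 * vonMangoldt n) := by gcongr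
          _ = _ := one_mul _
      rw [← mul_assoc]
      exact mul_le_mul_of_nonneg_right h3 (by positivity)
    have hs2 := vm_sum.mul_left 2
    have hsm := Summable.of_nonneg_of_le (fun n => by positivity) hbd hs2
    refine ⟨fun n hn => ?_, hsm, (Summable.tsum_le_tsum hbd hsm hs2).trans ?_⟩
    · have h0 : vonMangoldt n = 0 := by
        interval_cases n <;> simp
      unfold ac
      rw [h0]
      simp
    · rw [tsum_mul_left]
      exact a2
  · intro q χ h2 hq hχ s hs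
    obtain ⟨p1, p2, n1, n2⟩ := hmem q χ h2 hq hχ
    have : NeZero q := ⟨by omega⟩
    have : NeZero (q * m₁) := ⟨mul_ne_zero (NeZero.ne q) (NeZero.ne m₁)⟩
    have : NeZero (q * m₂) := ⟨mul_ne_zero (NeZero.ne q) (NeZero.ne m₂)⟩
    have z1 := DirichletCharacter.LFunction_ne_zero_of_one_le_re _ (Or.inl n1) hs.le
    have z2 := DirichletCharacter.LFunction_ne_zero_of_one_le_re _ (Or.inl n2) hs.le
    have d1 := DirichletCharacter.differentiable_LFunction n1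
    have d2 := DirichletCharacter.differentiable_LFunction n2
    have e0 : FF ψ₁ ψ₂ q χ = DirichletCharacter.LFunction (tm χ ψ₁) *
        DirichletCharacter.LFunction (tm χ ψ₂) := by
      funext s
      unfold FF
      rw [Lf_eq, Lf_eq, Pi.mul_apply]
    have e2 : deriv (FF ψ₁ ψ₂ q χ) s / FF ψ₁ ψ₂ q χ s =
        deriv (DirichletCharacter.LFunction (tm χ ψ₁)) s / DirichletCharacter.LFunction (tm χ ψ₁) s +
        deriv (DirichletCharacter.LFunction (tm χ ψ₂)) s /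
          DirichletCharacter.LFunction (tm χ ψ₂) s := by
      rw [e0, deriv_mul (d1 s) (d2 s), Pi.mul_apply]
      field_simp
    rw [e2, L_ld' _ hs, L_ld' _ hs, ← neg_add]
    congr 1
    have s1 : Summable (LSeries.term (fun n => tm χ ψ₁ n * (vonMangoldt n : ℂ)) s) :=
      DirichletCharacter.LSeriesSummable_twist_vonMangoldt (tm χ ψ₁) hs
    have s2 : Summable (LSeries.term (fun n => tm χ ψ₂ n * (vonMangoldt n : ℂ)) s) :=
      DirichletCharacter.LSeriesSummable_twist_vonMangoldt (tm χ ψ₂) hs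
    change (∑' n, LSeries.term (fun n => tm χ ψ₁ n * (vonMangoldt n : ℂ)) s n) +
      (∑' n, LSeries.term (fun n => tm χ ψ₂ n * (vonMangoldt n : ℂ)) s n) = _
    rw [← Summable.tsum_add s1 s2]
    refine tsum_congr fun n => ?_
    rcases Nat.eq_zero_or_pos n with rfl | hn
    · simp [ac]
    rw [LSeries.term_of_ne_zero hn.ne', LSeries.term_of_ne_zero hn.ne', tm_apply, tm_apply,
      Complex.cpow_neg, div_eq_mul_inv, div_eq_mul_inv]
    change _ = χ (n : ZMod q) * ((ψ₁ (n : ZMod m₁) + ψ₂ (n : ZMod m₂)) *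
          (vonMangoldt n : ℂ)) * _
    ring
  · intro q χ h2 hq hχ s hs
    have : NeZero q := ⟨by omega⟩
    have : NeZero (q * m₁) := ⟨mul_ne_zero (NeZero.ne q) (NeZero.ne m₁)⟩
    have : NeZero (q * m₂) := ⟨mul_ne_zero (NeZero.ne q) (NeZero.ne m₂)⟩
    have k1 := DirichletCharacter.LSeries_eulerProduct_hasProd (tm χ ψ₁) hs
    have k2 := DirichletCharacter.LSeries_eulerProduct_hasProd (tm χ ψ₂) hs
    unfold FF
    rw [Lf_eq, Lf_eq, DirichletCharacter.LFunction_eq_LSeries _ hs,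
      DirichletCharacter.LFunction_eq_LSeries _ hs]
    refine (k1.mul k2).congr_fun fun p => ?_
    rw [Fintype.prod_sum_type]
    simp only [Finset.univ_unique, Finset.prod_singleton, gp, Sum.elim_inl, Sum.elim_inr]
    rw [tm_apply, tm_apply]
    congr 2 <;> ring

end

end Pool.Agent.T9h27.P
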