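import Pool.Agent.T9h27.P.Gen
import Pool.Agent.T9h27.P.Cst
import Pool.Agent.T9h27.Y.Gwg
import Pool.Agent.T9h27.A.Cm
import Pool.Agent.T9h27.K.GlK
import Pool.Agent.Y773.IQ.Good

/-!
# Families of products of L-functions of total degree 2 and 3 (helper27)
-/

set_option autoImplicit false

open Complex Filter Topology MeasureTheory

namespace Pool.Agent.T9h27.P

open Pool.Agent.T9h27.Y
open Pool.Agent.T9h27.Z (GoodW NCs consts2)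
open Pool.Agent.T9h27.D (NS LA GLf gl_of_fen)
open Pool.Agent.T9h27.K (GLf.mono)
open Pool.Agent.T9h27.W (TwData GM)
open Pool.Agent.T9h27.A (Nm ns_Nm ch ch_le twc LA_euler)
open Pool.Agent.Y773 (FEd GG)
open Pool.Agent.Y773.IQ (FEd.toFEn)
open W388.LV (CoefE)
open H385 (Rw primFamM primSetM mem_primSetM primFamM_eq primFamM_mono primFamM_lin IX)
open H370 (zset NN Ns Nd mult)

/-- the data of a family of products: the Euler factor at `p` is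
`∏ (1 - g p i χ(p) p^(-s))⁻¹` -/
structure PD (ι : Type) [Fintype ι] (N : ℝ) (M₀ : ℕ) (A₀ : ℝ) (g : Nat.Primes → ι → ℂ)
    (c₀ : ℕ → ℂ) (F : (q : ℕ) → DirichletCharacter ℂ q → ℂ → ℂ) : Prop where
  hN : 1 ≤ N
  hM : M₀ ≠ 0
  hA : 1 ≤ A₀
  g1 : ∀ p i, ‖g p i‖ ≤ 1
  fe : ∀ (q : ℕ) (χ : DirichletCharacter ℂ q), 2 ≤ q → Nat.Coprime q M₀ → χ.IsPrimitive →
    ∃ e : ι → ℕ, FEd (N * (q : ℝ) ^ Fintype.card ι) e (F q χ)
  nz : ∀ (q : ℕ) (χ : DirichletCharacter ℂ q), 2 ≤ q → Nat.Coprime q M₀ → χ.IsPrimitive →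
    ∀ s : ℂ, 1 ≤ s.re → F q χ s ≠ 0
  up : ∀ (q : ℕ) (χ : DirichletCharacter ℂ q), 2 ≤ q → Nat.Coprime q M₀ → χ.IsPrimitive →
    ∀ s : ℂ, 3 / 2 ≤ s.re → ‖F q χ s‖ ≤ A₀
  lo : ∀ (q : ℕ) (χ : DirichletCharacter ℂ q), 2 ≤ q → Nat.Coprime q M₀ → χ.IsPrimitive →
    ∀ s : ℂ, 2 ≤ s.re → A₀⁻¹ ≤ ‖F q χ s‖
  co : ∀ (q : ℕ) (χ : DirichletCharacter ℂ q), 2 ≤ q → Nat.Coprime q M₀ → χ.IsPrimitive →
    CoefE A₀ (ac c₀ ⟨q, χ⟩)
  ld : ∀ (q : ℕ) (χ : DirichletCharacter ℂ q), 2 ≤ q → Nat.Coprime q M₀ → χ.IsPrimitive →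
    ∀ s : ℂ, 1 < s.re → deriv (F q χ) s / F q χ s = - ∑' n : ℕ, ac c₀ ⟨q, χ⟩ n * (n : ℂ) ^ (-s)
  eu : ∀ (q : ℕ) (χ : DirichletCharacter ℂ q), 2 ≤ q → Nat.Coprime q M₀ → χ.IsPrimitive →
    ∀ s : ℂ, 1 < s.re → HasProd (fun p : Nat.Primes => ∏ i, (1 - g p i *
      χ ((p : ℕ) : ZMod q) * ((p : ℕ) : ℂ) ^ (-s))⁻¹) (F q χ s)

section

variable {ι : Type} [Fintype ι] [Nonempty ι] {N : ℝ} {M₀ : ℕ} {A₀ : ℝ}
    {g : Nat.Primes → ι → ℂ} {c₀ : ℕ → ℂ} {F : (q : ℕ) → DirichletCharacter ℂ q → ℂ → ℂ}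

/-- the data for the density theorem -/
theorem twdata_prod (h : PD ι N M₀ A₀ g c₀ F) : ∃ A : ℝ,
    TwData (Nm ι) (ch g) (Fintype.card ι) A 1 (GM M₀) (fun i => twc (Nm ι) (ch g) i.2)
      (fun i => F i.1 i.2) := by
  obtain ⟨A, hA, hgl⟩ := gl_of_fen (ns_Nm ι) (Fintype.card ι) h.hN
  have hN0 : 0 < N := by linarith [h.hN]
  refine ⟨A, hA, le_rfl, Fintype.card_pos, ch_le h.g1, fun i a => rfl, ?_, ?_, ?_⟩
  · rintro ⟨q, χ⟩ ⟨h2, hqM, hχ⟩ Q T hiQ hQ hT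
    have hi1 : (1 : ℝ) ≤ q := by
      have : 1 ≤ q := by have : 2 ≤ q := h2; omega
      exact_mod_cast this
    have hi0 : (0 : ℝ) < q := by linarith
    have hT0 : 0 < T := by linarith
    obtain ⟨e, he⟩ := h.fe q χ h2 hqM hχ
    have k2 := FEd.toFEn he
    have k3 := hgl rfl ((q : ℝ) ^ Fintype.card ι) (one_le_pow₀ hi1) e (fun _ => 0)
      (twc (Nm ι) (ch g) χ) (F q χ) T hT (fun _ => by rw [abs_zero]; exact hT0.le)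
      (fun a => ?_) k2 (fun s hs => ?_)
    · refine GLf.mono hA hT0 (Real.log_le_log (by positivity) ?_) k3
      rw [one_mul, mul_pow]
      have : (q : ℝ) ≤ Q := hiQ
      gcongr
    · change ‖ch g a * χ ((Nm ι a : ℕ) : ZMod q)‖ ≤ 1
      rw [norm_mul]
      exact mul_le_one₀ (ch_le h.g1 a) (norm_nonneg _) (χ.norm_le_one _)
    · exact (h.eu q χ h2 hqM hχ s (by linarith)).unique (LA_euler ι h.g1 χ hs)
  · rintro ⟨q, χ⟩ ⟨h2, hqM, hχ⟩ s hs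
    exact h.nz q χ h2 hqM hχ s hs.le
  · rintro ⟨q, χ⟩ ⟨h2, hqM, hχ⟩ z hz0 hz1
    have hi0 : (0 : ℝ) < q := by
      have : 0 < q := by have : 2 ≤ q := h2; omega
      exact_mod_cast this
    obtain ⟨e, he⟩ := h.fe q χ h2 hqM hχ
    exact Pool.Agent.N786.D.ord_symm (by positivity) (FEd.toFEn he) hz0 hz1

/-- the data for the explicit formula -/
theorem good_prod (h : PD ι N M₀ A₀ g c₀ F) : ∃ A' : ℝ, 1 ≤ A' ∧ ∀ i, GM M₀ i →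
    GoodW (Fintype.card ι : ℕ) A' ((1 : ℝ) ^ (1 / ((Fintype.card ι : ℕ) : ℝ)) * i.1)
      ((fun i : (Σ q : ℕ, DirichletCharacter ℂ q) => F i.1 i.2) i) (ac c₀ i) := by
  obtain ⟨A', hA', hgw⟩ := goodW_gen ι h.hN h.hA
  refine ⟨A', hA', ?_⟩
  rintro ⟨q, χ⟩ ⟨h2, hqM, hχ⟩
  have hi1 : (1 : ℝ) ≤ q := by
    have : 1 ≤ q := by have : 2 ≤ q := h2; omega
    exact_mod_cast this
  obtain ⟨e, he⟩ := h.fe q χ h2 hqM hχ
  rw [Real.one_rpow, one_mul]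
  exact hgw q e (F q χ) (ac c₀ ⟨q, χ⟩) hi1 he (h.nz q χ h2 hqM hχ) (h.up q χ h2 hqM hχ)
    (h.lo q χ h2 hqM hχ) (h.co q χ h2 hqM hχ) (h.ld q χ h2 hqM hχ)

end

/-- scaling of the coefficients -/
lemma lsh_scale {ι : Type} {s : Finset ι} {a : ι → ℕ → ℂ} {c : ℕ → ℂ} {M q Y : ℕ} {D D' r : ℝ}
    (hr : 0 < r) (h : LSh s a c M q D D' Y) :
    LSh s a (fun n => c n / (Real.sqrt r : ℂ)) M q (r * D) D' Y := by
  intro b β hβ hb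
  refine (h b β hβ hb).trans (le_of_eq ?_)
  have e1 : ∑ m ∈ Finset.Icc 1 M,
        ‖b m‖ ^ 2 * (ArithmeticFunction.vonMangoldt m * ‖c m / (Real.sqrt r : ℂ)‖) ^ 2 =
      1 / r * ∑ m ∈ Finset.Icc 1 M,
        ‖b m‖ ^ 2 * (ArithmeticFunction.vonMangoldt m * ‖c m‖) ^ 2 := by
    rw [Finset.mul_sum]
    refine Finset.sum_congr rfl fun m _ => ?_
    rw [mul_pow, mul_pow, norm_div, Complex.norm_real, Real.norm_of_nonneg (Real.sqrt_nonneg r),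
      div_pow, Real.sq_sqrt hr.le]
    ring
  rw [e1]
  field_simp

lemma FD.scale {J : Type} {ι : J → Type} {S : (j : J) → Finset (ι j)}
    {F : (j : J) → ι j → ℂ → ℂ} {a : (j : J) → ι j → ℕ → ℂ} {Q : (j : J) → ι j → ℝ} {X : J → ℝ}
    {q Yc : J → ℕ} {c : ℕ → ℂ} {d A l₂ D D' g cf θ r : ℝ} (hr : 0 < r)
    (h : FD S F a Q X q Yc c d A l₂ D D' g cf θ) :
    FD S F a Q X q Yc (fun n => c n / (Real.sqrt r : ℂ)) d A l₂ (r * D) D' g cf θ where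
  hd := h.hd
  hA := h.hA
  hX := h.hX
  hG := h.hG
  hav := h.hav
  hls := by
    obtain ⟨X0, h0⟩ := h.hls
    exact ⟨X0, fun j hj M hM => lsh_scale hr (h0 j hj M hM)⟩
  hnc := h.hnc
  hncr := h.hncr
  hg0 := h.hg0
  hgc := h.hgc
  hlg := h.hlg
  hD' := h.hD'
  hθ := h.hθ
  hθ1 := h.hθ1
  hfar := h.hfar
  hnear := h.hnear

section

variable {ι : Type} [Fintype ι] [Nonempty ι] {N : ℝ} {M₀ : ℕ} {A₀ : ℝ}
    {g : Nat.Primes → ι → ℂ} {c₀ : ℕ → ℂ} {F : (q : ℕ) → DirichletCharacter ℂ q → ℂ → ℂ}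

open Classical in
/-- **all heights and all windows for families of products** -/
theorem micro_prod (h : PD ι N M₀ A₀ g c₀ F) {d : ℕ} (hcard : Fintype.card ι = d)
    (hd : d = 2 ∨ d = 3) {B₀ : ℝ} (hB₀ : 0 ≤ B₀) (hc₀ : ∀ m, ‖c₀ m‖ ≤ B₀) {r ϖ : ℝ} (hr : 1 ≤ r)
    (hsel : W388.SelE (fun n => c₀ n / (Real.sqrt r : ℂ))) (hϖ : 0 ≤ ϖ)
    (hk : ∃ γ l D : ℝ, 0 < γ ∧ γ < Real.pi ∧ 1 / 2 ≤ l ∧ d * l < 2 ∧ 1 < D ∧
      Rw γ 0 / l + 2 * l * (r * D) * (∫ α in (0 : ℝ)..1, α * Rw γ α) < 2 - ϖ) :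
    ∃ κ : ℝ, 2 ≤ κ ∧
      (∀ X Y : ℕ, 1 ≤ X → κ * X ≤ Y → 1 ≤ primFamM M₀ X Y (fun _ _ => 1)) ∧
      (∀ δ : ℝ, 0 < δ → ∃ B η X₀ : ℝ, 0 < B ∧ 0 < η ∧ 1 ≤ X₀ ∧ ∀ X Y : ℕ, X₀ ≤ (X : ℝ) →
        κ * (X : ℝ) ≤ (Y : ℝ) → ∀ t H : ℝ, |t| ≤ (X : ℝ) ^ η → B ≤ H * Real.log X →
        H ≤ (X : ℝ) ^ η →
        (∀ (q : ℕ) (χ : DirichletCharacter ℂ q), X < q → Nat.Coprime q M₀ → χ.IsPrimitive →
          (zset (F q χ) t (t + H)).Finite) ∧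
        primFamM M₀ X Y (fun q χ => |(NN (F q χ) t (t + H) : ℝ) -
            d * H / (2 * Real.pi) * Real.log q|) ≤
          δ * primFamM M₀ X Y (fun q _ => d * H / (2 * Real.pi) * Real.log q) ∧
        ϖ * primFamM M₀ X Y (fun q χ => (NN (F q χ) t (t + H) : ℝ)) ≤
          primFamM M₀ X Y (fun q χ => (Ns (F q χ) t (t + H) : ℝ)) ∧
        (1 + ϖ) / 2 * primFamM M₀ X Y (fun q χ => (NN (F q χ) t (t + H) : ℝ)) ≤
          primFamM M₀ X Y (fun q χ => (Nd (F q χ) t (t + H) : ℝ))) ∧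
      (∃ B η X₀ : ℝ, 0 < B ∧ 0 < η ∧ 1 ≤ X₀ ∧ ∀ X Y : ℕ, X₀ ≤ (X : ℝ) →
        κ * (X : ℝ) ≤ (Y : ℝ) → ∀ t H : ℝ, |t| ≤ (X : ℝ) ^ η → B ≤ H * Real.log X →
        ϖ * primFamM M₀ X Y (fun _ _ => 1) ≤
          primFamM M₀ X Y (fun q χ => if (∃ s ∈ zset (F q χ) t (t + H), s.re = 1 / 2 ∧
            mult (F q χ) s = 1) then 1 else 0)) := by
  obtain ⟨A, hD⟩ := twdata_prod h
  obtain ⟨A', hA', hgood⟩ := good_prod h
  rw [hcard] at hD hgood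
  obtain ⟨γ, l, D, h1, h2, h3, h4, h5, h6⟩ := hk
  have hr0 : 0 < r := by linarith
  have hD1 : 1 < r * D := by nlinarith
  rcases hd with rfl | rfl
  · push_cast at h4
    obtain ⟨κ, P, D', hκ, hms, hfd⟩ := fd_tw (ns_Nm ι) hD h.hM le_rfl (by norm_num) hA' hB₀ hc₀ hgood
      (g := 2 / 5) (cf := 9 / 10) (l₂ := (l + 1) / 2) (D := D) (by linarith)
      (by push_cast; linarith) h5 (by norm_num) (by norm_num) (by linarith) (by norm_num)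
      (by push_cast; norm_num)
    obtain ⟨k1, k2⟩ := micro_gen (F := fun i => F i.1 i.2) (by norm_num) le_rfl hsel hϖ h1 h2 h3
      (l₂ := (l + 1) / 2) (g := 2 / 5) (by linarith) (by linarith) (by linarith) hD1 h6 hκ hms
      (FD.scale hr0 hfd)
    exact ⟨κ, hκ, hms, k1, k2⟩
  · push_cast at h4
    obtain ⟨κ, P, D', hκ, hms, hfd⟩ := fd_tw (ns_Nm ι) hD h.hM (by norm_num) le_rfl hA' hB₀ hc₀ hgood
      (g := 1 / 4) (cf := 3 / 10) (l₂ := (l + 2 / 3) / 2) (D := D) (by linarith)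
      (by push_cast; linarith) h5 (by norm_num) (by norm_num) (by linarith) (by norm_num)
      (by push_cast; norm_num)
    obtain ⟨k1, k2⟩ := micro_gen (F := fun i => F i.1 i.2) (by norm_num) le_rfl hsel hϖ h1 h2 h3
      (l₂ := (l + 2 / 3) / 2) (g := 1 / 4) (by linarith) (by linarith) (by linarith) hD1 h6 hκ hms
      (FD.scale hr0 hfd)
    exact ⟨κ, hκ, hms, k1, k2⟩

end

end Pool.Agent.T9h27.P
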